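import Pool.Agent.Run7.h672.WT.U
import Pool.Agent.Run7.h844.RP.PwS2

set_option autoImplicit false

/-! An upper bound sieve for laws with small exponential sums, and conditions on `c + κ v` which are periodic modulo the primes
(the conditions `rq` are those of `Pool.Agent.Run7.h844.RP`, helper844). -/

namespace Pool.Agent.Run7.h672.WT
open Finset
open Pool.Agent.Run7.h672.XC
open Pool.Agent.H373R2.T7 (nuB PerB nuB_le pz mem_pz)
open Pool.Agent.Run7.h844.RP (rq)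

lemma per_mul (P : ℤ → Prop) (q : ℤ) (h : ∀ n, P (n + q) ↔ P n) (m n : ℤ) : P (n + m * q) ↔ P n := by
  induction m using Int.induction_on with
  | zero => rw [zero_mul, add_zero]
  | succ i ih =>
    rw [← ih, ← h (n + i * q)]
    have e : n + ((i : ℤ) + 1) * q = n + i * q + q := by ring
    rw [e]
  | pred i ih =>
    rw [← ih, ← h (n + (-(i : ℤ) - 1) * q)]
    have e : n + (-(i : ℤ) - 1) * q + q = n + -(i : ℤ) * q := by ring
    rw [e]

lemma per_emod (P : ℤ → Prop) (q : ℤ) (h : ∀ n, P (n + q) ↔ P n) (n : ℤ) : P (n % q) ↔ P n := by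
  have h1 := per_mul P q h (-(n / q)) n
  rw [← h1]
  have e : n + -(n / q) * q = n % q := by
    have := Int.emod_add_mul_ediv n q
    linarith
  rw [e]

/-- the condition `R` on `c + κ v` -/
def Af (κ z : ℕ) (c : ℤ) (R : ℕ → ℤ → Prop) (q v : ℕ) : Prop := z < q ∧ R q (c + (κ : ℤ) * v)

lemma Af_nu (κ z : ℕ) (hκ : 1 ≤ κ) (hκz : κ ≤ z) (c : ℤ) (R : ℕ → ℤ → Prop) (hR : ∀ (q : ℕ) (n : ℤ), R q (n + q) ↔ R q n) (q : ℕ)
    (hq : q.Prime) (hz : z < q) : nuB (Af κ z c R) q = rq R q := by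
  classical
  have : Fact q.Prime := ⟨hq⟩
  have hq0 : (0 : ℤ) < q := by exact_mod_cast hq.pos
  have hnd : ¬ (q ∣ κ) := by
    intro h
    have := Nat.le_of_dvd (by omega) h
    omega
  have hκ0 : (κ : ZMod q) ≠ 0 := by
    intro h
    rw [ZMod.natCast_eq_zero_iff] at h
    exact hnd h
  unfold nuB rq
  refine card_bij (fun (r : ℕ) _ => ((c + (κ : ℤ) * r) % q).toNat) ?_ ?_ ?_
  · intro r hr
    rw [mem_filter, mem_range] at hr ⊢
    have h1 := Int.emod_nonneg (c + (κ : ℤ) * r) hq0.ne'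
    have h2 := Int.emod_lt_of_pos (c + (κ : ℤ) * r) hq0
    refine ⟨by omega, ?_⟩
    have e : ((((c + (κ : ℤ) * r) % q).toNat : ℕ) : ℤ) = (c + (κ : ℤ) * r) % q := Int.toNat_of_nonneg h1
    rw [e, per_emod (R q) q (hR q)]
    exact hr.2.2
  · intro r hr r' hr' h
    rw [mem_filter, mem_range] at hr hr'
    have h1 := Int.emod_nonneg (c + (κ : ℤ) * r) hq0.ne'
    have h1' := Int.emod_nonneg (c + (κ : ℤ) * r') hq0.ne'
    have h2 : (c + (κ : ℤ) * r) % q = (c + (κ : ℤ) * r') % q := by omega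
    have h4 : (q : ℤ) ∣ (κ : ℤ) * ((r : ℤ) - r') := by
      have h5 := Int.ModEq.dvd (show (c + (κ : ℤ) * r') ≡ (c + (κ : ℤ) * r) [ZMOD q] from h2.symm)
      have e : (c + (κ : ℤ) * r) - (c + (κ : ℤ) * r') = (κ : ℤ) * ((r : ℤ) - r') := by ring
      rwa [e] at h5
    have hqi := Nat.prime_iff_prime_int.1 hq
    rcases hqi.dvd_or_dvd h4 with g | g
    · exact absurd (by exact_mod_cast g) hnd
    · have g2 := Int.eq_zero_of_abs_lt_dvd g (by rw [abs_lt]; constructor <;> omega)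
      omega
  · intro n hn
    rw [mem_filter, mem_range] at hn
    obtain ⟨x, hx⟩ : ∃ x : ZMod q, x = ((n : ZMod q) - (c : ZMod q)) * (κ : ZMod q)⁻¹ := ⟨_, rfl⟩
    have hxc : (c : ZMod q) + κ * x = n := by
      rw [hx]
      field_simp
      ring
    have hmod : (c + (κ : ℤ) * (x.val : ℕ)) % q = (n : ℤ) % q := by
      have h5 : ((c + (κ : ℤ) * (x.val : ℕ) : ℤ) : ZMod q) = ((n : ℤ) : ZMod q) := by
        push_cast
        rw [ZMod.natCast_val, ZMod.cast_id', id]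
        exact hxc
      exact (ZMod.intCast_eq_intCast_iff' _ _ _).1 h5
    have hnn : (n : ℤ) % q = n := Int.emod_eq_of_lt (by positivity) (by exact_mod_cast hn.1)
    refine ⟨x.val, ?_, ?_⟩
    · rw [mem_filter, mem_range]
      refine ⟨ZMod.val_lt x, hz, ?_⟩
      rw [← per_emod (R q) q (hR q), hmod, hnn]
      exact hn.2
    · rw [hmod, hnn, Int.toNat_natCast]

lemma Af_per (κ z d : ℕ) (hκ : 1 ≤ κ) (hκz : κ ≤ z) (c : ℤ) (R : ℕ → ℤ → Prop) (hR : ∀ (q : ℕ) (n : ℤ), R q (n + q) ↔ R q n)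
    (hd : ∀ q : ℕ, q.Prime → rq R q ≤ d) : PerB (Af κ z c R) d := by
  classical
  refine ⟨fun q n => ?_, fun q hq => ?_⟩
  · unfold Af
    apply and_congr_right
    intro _
    have e : c + (κ : ℤ) * n = (c + (κ : ℤ) * ((n % q : ℕ) : ℤ)) + (κ * ((n / q : ℕ) : ℤ)) * q := by
      have h1 : ((n : ℕ) : ℤ) = (q : ℤ) * ((n / q : ℕ) : ℤ) + ((n % q : ℕ) : ℤ) := by exact_mod_cast (Nat.div_add_mod n q).symm
      calc c + (κ : ℤ) * n = c + (κ : ℤ) * ((q : ℤ) * ((n / q : ℕ) : ℤ) + ((n % q : ℕ) : ℤ)) := by rw [← h1]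
        _ = _ := by ring
    rw [e]
    exact per_mul (R q) q (hR q) _ _
  · by_cases hz : z < q
    · rw [Af_nu κ z hκ hκz c R hR q hq hz]
      exact hd q hq
    · have : nuB (Af κ z c R) q = 0 := by
        unfold nuB
        rw [card_eq_zero, filter_eq_empty_iff]
        intro r _ h
        exact hz h.1
      omega

open Classical in
/-- **an upper bound sieve** -/
theorem law_gen {b L T : ℕ} {𝒞 : ℕ → (ℕ → ℝ) → Prop} (hcls : RCls b L T 𝒞) (d U κ : ℕ) (hκ : 1 ≤ κ) :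
    ∃ C η : ℝ, 0 < C ∧ 0 < η ∧ ∃ k₀ : ℕ, ∀ k : ℕ, k₀ ≤ k → ∃ y : ℕ, 3 ≤ y ∧ η * Real.sqrt k ≤ Real.log y ∧ ∀ p, 𝒞 k p →
    ∀ R : ℕ → ℤ → Prop, (∀ (q : ℕ) (n : ℤ), R q (n + q) ↔ R q n) → (∀ q : ℕ, q.Prime → rq R q ≤ d) → ∀ c : ℤ,
    ∀ E : Finset ℕ, (∀ v ∈ E, v < b ^ k ∧ ∀ q : ℕ, q.Prime → (q : ℝ) ≤ Real.exp (Real.sqrt k) → ¬ R q (c + (κ : ℤ) * v)) →
    ∑ v ∈ E, p v ≤ C * Real.exp (-∑ q ∈ pz y, (rq R q : ℝ) / q) + 1 / (k : ℝ) ^ U := by
  obtain ⟨z2, δ, hδ, k1, h⟩ := law_fund hcls d U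
  obtain ⟨z₀, hz⟩ : ∃ z₀, z₀ = max z2 κ := ⟨_, rfl⟩
  have hz2 : z2 ≤ z₀ := by omega
  have hzκ : κ ≤ z₀ := by omega
  obtain ⟨η, hη⟩ : ∃ η, η = min δ 1 := ⟨_, rfl⟩
  have hη0 : 0 < η := by rw [hη]; exact lt_min hδ one_pos
  have hηδ : η ≤ δ := by rw [hη]; exact min_le_left _ _
  have hη1 : η ≤ 1 := by rw [hη]; exact min_le_right _ _
  obtain ⟨N2, hN2⟩ := exists_nat_ge (2 / η)
  refine ⟨3 / 2 * Real.exp (z₀ + 1), η / 4, by positivity, by positivity, max k1 (max 1 (N2 ^ 2)), fun k hk => ?_⟩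
  have b1 : k1 ≤ k := (le_max_left _ _).trans hk
  have b2 : 1 ≤ k := ((le_max_left _ _).trans (le_max_right _ _)).trans hk
  have b3 : N2 ^ 2 ≤ k := ((le_max_right _ _).trans (le_max_right _ _)).trans hk
  obtain ⟨s, hs⟩ : ∃ s, s = Real.sqrt k := ⟨_, rfl⟩
  have hk0 : (0 : ℝ) < k := by exact_mod_cast b2
  have hs0 : 0 < s := by rw [hs]; exact Real.sqrt_pos.2 hk0
  have hsN : 2 / η ≤ s := by
    refine hN2.trans ?_
    rw [hs]
    apply Real.le_sqrt_of_sq_le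
    exact_mod_cast b3
  have hηs : 2 ≤ η * s := by
    rw [div_le_iff₀ hη0] at hsN
    linarith
  obtain ⟨n, hn⟩ : ∃ n, n = ⌊η * s⌋₊ := ⟨_, rfl⟩
  have hn1 : 2 ≤ n := by rw [hn]; exact Nat.le_floor (by exact_mod_cast hηs)
  have hn2 : (n : ℝ) ≤ η * s := by rw [hn]; exact Nat.floor_le (by positivity)
  have hn3 : η * s < n + 1 := by rw [hn]; exact Nat.lt_floor_add_one _
  obtain ⟨J, hJ⟩ : ∃ J, J = Nat.log 2 n := ⟨_, rfl⟩
  have hJ1 : 2 ^ J ≤ n := by rw [hJ]; exact Nat.pow_log_le_self 2 (by omega)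
  have hJ2 : n < 2 ^ (J + 1) := by rw [hJ]; exact Nat.lt_pow_succ_log_self (by omega) n
  have hJ3 : 1 ≤ J := by
    by_contra h0
    have : J = 0 := by omega
    rw [this] at hJ2
    omega
  have hJ1r : (2 : ℝ) ^ J ≤ n := by exact_mod_cast hJ1
  have hJ2r : (n : ℝ) + 1 ≤ 2 * 2 ^ J := by
    have : n + 1 ≤ 2 * 2 ^ J := by rw [pow_succ] at hJ2; omega
    exact_mod_cast this
  obtain ⟨y, hy⟩ : ∃ y, y = 2 ^ 2 ^ J := ⟨_, rfl⟩
  have hy2 : 3 ≤ y := by
    rw [hy]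
    calc 3 ≤ 2 ^ 2 ^ 1 := by norm_num
      _ ≤ 2 ^ 2 ^ J := Nat.pow_le_pow_right (by norm_num) (Nat.pow_le_pow_right (by norm_num) hJ3)
  have hly : Real.log y = 2 ^ J * Real.log 2 := by
    rw [hy]
    push_cast
    rw [Real.log_pow]
    push_cast
    ring
  have hl2 := Real.log_two_gt_d9
  have hl2' := Real.log_two_lt_d9
  have hJ0 : (0 : ℝ) < 2 ^ J := by positivity
  have hly1 : η / 4 * s ≤ Real.log y := by
    rw [hly]
    nlinarith
  have hyexp : (y : ℝ) ≤ Real.exp s := by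
    have hy0 : (0 : ℝ) < y := by exact_mod_cast (by omega : 0 < y)
    rw [← Real.log_le_iff_le_exp hy0, hly]
    have g1 : (2 : ℝ) ^ J ≤ s := by
      calc (2 : ℝ) ^ J ≤ η * s := hJ1r.trans hn2
        _ ≤ 1 * s := mul_le_mul_of_nonneg_right hη1 hs0.le
        _ = s := one_mul s
    nlinarith
  refine ⟨y, hy2, by rw [← hs]; exact hly1, fun p hp R hR hRd c E hE => ?_⟩
  have hper := Af_per κ z₀ d hκ hzκ c R hR hRd
  have h1 := h k b1 p hp J (by
    rw [← hs]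
    calc (2 : ℝ) ^ J ≤ η * s := hJ1r.trans hn2
      _ ≤ δ * s := mul_le_mul_of_nonneg_right hηδ hs0.le) z₀ hz2 (Af κ z₀ c R) hper
  rw [← hy] at h1
  have hP : ∀ q ∈ (Ioc z₀ y).filter Nat.Prime, q.Prime ∧ z₀ < q ∧ q ≤ y := by
    intro q hq
    rw [mem_filter, mem_Ioc] at hq
    exact ⟨hq.2, hq.1.1, hq.1.2⟩
  have hrq : ∀ q, rq R q ≤ q := by
    intro q
    unfold rq
    refine (card_filter_le _ _).trans ?_
    rw [card_range]
  -- the product
  have hprod : ∏ q ∈ (Ioc z₀ y).filter Nat.Prime, (1 - (nuB (Af κ z₀ c R) q : ℝ) / q) ≤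
      Real.exp (z₀ + 1) * Real.exp (-∑ q ∈ pz y, (rq R q : ℝ) / q) := by
    have g1 : ∏ q ∈ (Ioc z₀ y).filter Nat.Prime, (1 - (nuB (Af κ z₀ c R) q : ℝ) / q) ≤
        Real.exp (-∑ q ∈ (Ioc z₀ y).filter Nat.Prime, (rq R q : ℝ) / q) := by
      rw [← sum_neg_distrib, Real.exp_sum]
      apply prod_le_prod
      · intro q hq
        have hq0 : (0 : ℝ) < q := by exact_mod_cast (hP q hq).1.pos
        rw [sub_nonneg, div_le_one hq0]
        exact_mod_cast nuB_le _ q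
      · intro q hq
        rw [Af_nu κ z₀ hκ hzκ c R hR q (hP q hq).1 (hP q hq).2.1]
        have := Real.add_one_le_exp (-((rq R q : ℝ) / q))
        linarith
    refine g1.trans ?_
    rw [← Real.exp_add]
    apply Real.exp_le_exp.2
    have g2 : ∑ q ∈ pz y, (rq R q : ℝ) / q ≤ (z₀ + 1) + ∑ q ∈ (Ioc z₀ y).filter Nat.Prime, (rq R q : ℝ) / q := by
      have g3 : pz y ⊆ (range (z₀ + 1)).filter Nat.Prime ∪ (Ioc z₀ y).filter Nat.Prime := by
        intro q hq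
        rw [mem_pz] at hq
        rw [mem_union, mem_filter, mem_filter, mem_range, mem_Ioc]
        by_cases hqz : q < z₀ + 1
        · exact Or.inl ⟨hqz, hq.2⟩
        · exact Or.inr ⟨⟨by omega, hq.1⟩, hq.2⟩
      have hn0 : ∀ q : ℕ, (0 : ℝ) ≤ (rq R q : ℝ) / q := fun q => by positivity
      have g4 : ∑ q ∈ pz y, (rq R q : ℝ) / q ≤ ∑ q ∈ (range (z₀ + 1)).filter Nat.Prime, (rq R q : ℝ) / q +
          ∑ q ∈ (Ioc z₀ y).filter Nat.Prime, (rq R q : ℝ) / q := by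
        refine (sum_le_sum_of_subset_of_nonneg g3 fun q _ _ => hn0 q).trans ?_
        rw [← sum_union_inter]
        have : 0 ≤ ∑ q ∈ (range (z₀ + 1)).filter Nat.Prime ∩ (Ioc z₀ y).filter Nat.Prime, (rq R q : ℝ) / q :=
          sum_nonneg fun q _ => hn0 q
        linarith
      have g5 : ∑ q ∈ (range (z₀ + 1)).filter Nat.Prime, (rq R q : ℝ) / q ≤ z₀ + 1 := by
        calc ∑ q ∈ (range (z₀ + 1)).filter Nat.Prime, (rq R q : ℝ) / q ≤ ∑ _q ∈ (range (z₀ + 1)).filter Nat.Prime, (1 : ℝ) := by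
              apply sum_le_sum
              intro q hq
              have hq0 : (0 : ℝ) < q := by exact_mod_cast (mem_filter.1 hq).2.pos
              rw [div_le_one hq0]
              exact_mod_cast hrq q
          _ = (((range (z₀ + 1)).filter Nat.Prime).card : ℝ) := by rw [sum_const, nsmul_eq_mul, mul_one]
          _ ≤ ((z₀ + 1 : ℕ) : ℝ) := by
              have := card_filter_le (range (z₀ + 1)) Nat.Prime
              rw [card_range] at this
              exact_mod_cast this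
          _ = _ := by push_cast; ring
      linarith
    linarith
  have hsum : ∑ v ∈ E, p v ≤ ∑ v ∈ (range (b ^ k)).filter (fun v => ∀ q ∈ (Ioc z₀ y).filter Nat.Prime, ¬ Af κ z₀ c R q v), p v := by
    apply sum_le_sum_of_subset_of_nonneg
    · intro v hv
      obtain ⟨g1, g2⟩ := hE v hv
      rw [mem_filter, mem_range]
      refine ⟨g1, fun q hq hA => ?_⟩
      obtain ⟨hqp, hqz, hqy⟩ := hP q hq
      refine g2 q hqp ?_ hA.2
      rw [← hs]
      exact le_trans (by exact_mod_cast hqy) hyexp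
    · intro v _ _
      exact hcls.nonneg _ _ hp v
  have h2 : ∑ v ∈ (range (b ^ k)).filter (fun v => ∀ q ∈ (Ioc z₀ y).filter Nat.Prime, ¬ Af κ z₀ c R q v), p v ≤
      1 / 2 * ∏ q ∈ (Ioc z₀ y).filter Nat.Prime, (1 - (nuB (Af κ z₀ c R) q : ℝ) / q) + 1 / (k : ℝ) ^ U +
        ∏ q ∈ (Ioc z₀ y).filter Nat.Prime, (1 - (nuB (Af κ z₀ c R) q : ℝ) / q) := by
    refine le_trans (le_of_eq ?_) (sub_le_iff_le_add.1 (abs_le.1 h1).2)
    congr!
  linarith

end Pool.Agent.Run7.h672.WT
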