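import Pool.Agent.Run7.h672.WT.Z

set_option autoImplicit false

/-! The second moment of the overlaps. -/

namespace Pool.Agent.Run7.h672.WT
open Finset
open Pool.Agent.Run7.h338.CW (Near o sum_o)

/-- the bound when a member is shared -/
noncomputable def Th (x δ : ℝ) (i j : Bool) (z : ℕ × ℕ) (n : ℤ) (z' : ℕ × ℕ) (n' : ℤ) : ℝ :=
  if ce i z = ce j z' then
      (if n ≡ n' [ZMOD (ce i z : ℤ)] then (1 / x ^ 3 + δ) + (if ce (!i) z = ce (!j) z' then 1 / x ^ 2 else 0) else 0) + 1 / x ^ 4 else 0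

lemma Th_nonneg (x δ : ℝ) (hx : 0 < x) (hδ : 0 ≤ δ) (i j : Bool) (z : ℕ × ℕ) (n : ℤ) (z' : ℕ × ℕ) (n' : ℤ) : 0 ≤ Th x δ i j z n z' n' := by
  unfold Th
  split_ifs <;> positivity

section
variable {Ω : Finset ℕ} {p : ℕ → ℝ} {t : ℕ → ℤ} {P : Finset ℕ} {x δ : ℝ} {a : ℕ → ℤ}

open Classical in
lemma one_pair
    (hres : ∀ S ⊆ P, S.card ≤ 4 → ∀ ρ : ℕ → ℤ, |∑ v ∈ Ω, (if ∀ q ∈ S, t v ≡ ρ q [ZMOD (q : ℤ)] then p v else 0) -
      1 / ∏ q ∈ S, (q : ℝ)| ≤ δ) {z : ℕ × ℕ} (hz : z ∈ P.offDiag) (n : ℤ) :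
    |∑ v ∈ Ω, (if Ev a z (t v + n) then p v else 0) - 1 / ((z.1 : ℝ) * z.2)| ≤ δ := by
  rw [mem_offDiag] at hz
  have h1 := hres {z.1, z.2} (by
    intro q hq
    rw [mem_insert, mem_singleton] at hq
    rcases hq with rfl | rfl
    · exact hz.1
    · exact hz.2.1) ((card_le_two).trans (by norm_num)) (fun q => a q - n)
  rw [prod_pair hz.2.2] at h1
  have e1 : ∑ v ∈ Ω, (if Ev a z (t v + n) then p v else 0) =
      ∑ v ∈ Ω, (if ∀ q ∈ ({z.1, z.2} : Finset ℕ), t v ≡ a q - n [ZMOD (q : ℤ)] then p v else 0) := by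
    apply sum_congr rfl
    intro v _
    have e2 : Ev a z (t v + n) ↔ ∀ q ∈ ({z.1, z.2} : Finset ℕ), t v ≡ a q - n [ZMOD (q : ℤ)] := by
      constructor
      · intro h q hq
        rw [mem_insert, mem_singleton] at hq
        rcases hq with rfl | rfl
        · exact res_of h.1
        · exact res_of h.2
      · intro h
        exact ⟨of_res (h z.1 (mem_insert_self _ _)), of_res (h z.2 (mem_insert_of_mem (mem_singleton_self _)))⟩
    by_cases h : Ev a z (t v + n)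
    · rw [if_pos h, if_pos (e2.1 h)]
    · rw [if_neg h, if_neg (fun h' => h (e2.2 h'))]
  rw [e1]
  exact h1

open Classical in
lemma two_pairs (hp0 : ∀ v, 0 ≤ p v) (hp1 : ∑ v ∈ Ω, p v = 1) (hx : 2 ≤ x) (hP : Near P x) (hδ0 : 0 ≤ δ)
    (hres : ∀ S ⊆ P, S.card ≤ 4 → ∀ ρ : ℕ → ℤ, |∑ v ∈ Ω, (if ∀ q ∈ S, t v ≡ ρ q [ZMOD (q : ℤ)] then p v else 0) -
      1 / ∏ q ∈ S, (q : ℝ)| ≤ δ) {z z' : ℕ × ℕ} (hz : z ∈ P.offDiag) (hz' : z' ∈ P.offDiag) (n n' : ℤ) :
    ∑ v ∈ Ω, p v * (((if Ev a z (t v + n) then (1 : ℝ) else 0) - 1 / ((z.1 : ℝ) * z.2)) *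
      ((if Ev a z' (t v + n') then (1 : ℝ) else 0) - 1 / ((z'.1 : ℝ) * z'.2))) ≤
      3 * δ + ∑ i : Bool, ∑ j : Bool, Th x δ i j z n z' n' := by
  have hx0 : 0 < x := by linarith
  have h1 := one_pair (a := a) hres hz n
  have h1' := one_pair (a := a) hres hz' n'
  have hz0 := mem_offDiag.1 hz
  have hz0' := mem_offDiag.1 hz'
  have hxge : ∀ q ∈ P, x ≤ (q : ℝ) := fun q hq => (hP q hq).2.1
  obtain ⟨w, hw⟩ : ∃ w : ℝ, w = 1 / ((z.1 : ℝ) * z.2) := ⟨_, rfl⟩
  obtain ⟨w', hw'⟩ : ∃ w' : ℝ, w' = 1 / ((z'.1 : ℝ) * z'.2) := ⟨_, rfl⟩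
  rw [← hw] at h1 ⊢
  rw [← hw'] at h1' ⊢
  have hwx : w ≤ 1 / x ^ 2 := by
    rw [hw, sq]
    apply one_div_le_one_div_of_le (by positivity)
    exact mul_le_mul (hxge _ hz0.1) (hxge _ hz0.2.1) hx0.le (Nat.cast_nonneg _)
  have hwx' : w' ≤ 1 / x ^ 2 := by
    rw [hw', sq]
    apply one_div_le_one_div_of_le (by positivity)
    exact mul_le_mul (hxge _ hz0'.1) (hxge _ hz0'.2.1) hx0.le (Nat.cast_nonneg _)
  have hw0 : 0 ≤ w := by rw [hw]; positivity
  have hw0' : 0 ≤ w' := by rw [hw']; positivity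
  have hx21 : 1 / x ^ 2 ≤ 1 := by
    rw [div_le_one (by positivity)]
    nlinarith
  obtain ⟨E1, hE1⟩ : ∃ E1, E1 = ∑ v ∈ Ω, (if Ev a z (t v + n) then p v else 0) := ⟨_, rfl⟩
  obtain ⟨E1', hE1'⟩ : ∃ E1', E1' = ∑ v ∈ Ω, (if Ev a z' (t v + n') then p v else 0) := ⟨_, rfl⟩
  obtain ⟨E2, hE2⟩ : ∃ E2, E2 = ∑ v ∈ Ω, (if Ev a z (t v + n) ∧ Ev a z' (t v + n') then p v else 0) := ⟨_, rfl⟩
  rw [← hE1] at h1
  rw [← hE1'] at h1'
  have hE10 : 0 ≤ E1 := by
    rw [hE1]
    exact sum_nonneg fun v _ => by split_ifs; exacts [hp0 v, le_rfl]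
  have hE10' : 0 ≤ E1' := by
    rw [hE1']
    exact sum_nonneg fun v _ => by split_ifs; exacts [hp0 v, le_rfl]
  have hexp : ∑ v ∈ Ω, p v * (((if Ev a z (t v + n) then (1 : ℝ) else 0) - w) *
      ((if Ev a z' (t v + n') then (1 : ℝ) else 0) - w')) = E2 - w' * E1 - w * E1' + w * w' := by
    have e1 : w * w' = w * w' * ∑ v ∈ Ω, p v := by rw [hp1, mul_one]
    rw [e1, hE2, hE1, hE1', mul_sum, mul_sum, mul_sum, ← sum_sub_distrib, ← sum_sub_distrib, ← sum_add_distrib]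
    apply sum_congr rfl
    intro v _
    by_cases hA : Ev a z (t v + n) <;> by_cases hB : Ev a z' (t v + n') <;> simp only [hA, hB, if_true, if_false, and_self, and_true, true_and, and_false, false_and] <;> ring
  rw [hexp]
  have hTh0 : ∀ i j, 0 ≤ Th x δ i j z n z' n' := fun i j => Th_nonneg x δ hx0 hδ0 i j z n z' n'
  have hTs : ∀ i j, Th x δ i j z n z' n' ≤ ∑ i : Bool, ∑ j : Bool, Th x δ i j z n z' n' := by
    intro i j
    refine le_trans (single_le_sum (f := fun j => Th x δ i j z n z' n') (fun j _ => hTh0 i j) (mem_univ j)) ?_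
    exact single_le_sum (f := fun i => ∑ j : Bool, Th x δ i j z n z' n') (fun i _ => sum_nonneg fun j _ => hTh0 i j) (mem_univ i)
  have a1 := abs_le.1 h1
  have a1' := abs_le.1 h1'
  by_cases hsh : ∃ i j, ce i z = ce j z'
  · obtain ⟨i, j, hij⟩ := hsh
    refine le_trans ?_ (le_trans (hTs i j) (by linarith))
    have hww : w * w' ≤ 1 / x ^ 4 := by
      calc w * w' ≤ 1 / x ^ 2 * (1 / x ^ 2) := mul_le_mul hwx hwx' hw0' (by positivity)
        _ = 1 / x ^ 4 := by rw [div_mul_div_comm, one_mul, ← pow_add]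
    have hp1' : 0 ≤ w' * E1 := mul_nonneg hw0' hE10
    have hp2' : 0 ≤ w * E1' := mul_nonneg hw0 hE10'
    unfold Th
    rw [if_pos hij]
    have hE2b : E2 ≤ (if n ≡ n' [ZMOD (ce i z : ℤ)] then (1 / x ^ 3 + δ) + (if ce (!i) z = ce (!j) z' then 1 / x ^ 2 else 0) else 0) := by
      by_cases hnn : n ≡ n' [ZMOD (ce i z : ℤ)]
      · rw [if_pos hnn]
        by_cases hbb : ce (!i) z = ce (!j) z'
        · rw [if_pos hbb]
          have h2 : E2 ≤ E1 := by
            rw [hE1, hE2]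
            apply sum_le_sum
            intro v _
            by_cases hA : Ev a z (t v + n)
            · rw [if_pos hA]
              split_ifs
              · exact le_rfl
              · exact hp0 v
            · rw [if_neg (fun h => hA h.1), if_neg hA]
          have h3 : 0 ≤ 1 / x ^ 3 := by positivity
          linarith
        · rw [if_neg hbb, add_zero]
          have m1 := ce_mem hz i
          have m2 := ce_mem hz (!i)
          have m3 := ce_mem hz' (!j)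
          have n12 := ce_ne hz i
          have n13 : ce i z ≠ ce (!j) z' := by rw [hij]; exact ce_ne hz' j
          have h2 := hres {ce i z, ce (!i) z, ce (!j) z'} (by
            intro q hq
            rw [mem_insert, mem_insert, mem_singleton] at hq
            rcases hq with rfl | rfl | rfl
            · exact m1
            · exact m2
            · exact m3) ((card_le_three).trans (by norm_num)) (fun q => if q = ce (!j) z' then a q - n' else a q - n)
          have h3 : ∏ q ∈ ({ce i z, ce (!i) z, ce (!j) z'} : Finset ℕ), (q : ℝ) = (ce i z : ℝ) * ((ce (!i) z : ℝ) * (ce (!j) z' : ℝ)) := by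
            rw [prod_insert, prod_pair hbb]
            rw [mem_insert, mem_singleton]
            push Not
            exact ⟨n12, n13⟩
          rw [h3] at h2
          have h4 : E2 ≤ ∑ v ∈ Ω, (if ∀ q ∈ ({ce i z, ce (!i) z, ce (!j) z'} : Finset ℕ),
              t v ≡ (if q = ce (!j) z' then a q - n' else a q - n) [ZMOD (q : ℤ)] then p v else 0) := by
            rw [hE2]
            apply sum_le_sum
            intro v _
            by_cases hA : Ev a z (t v + n) ∧ Ev a z' (t v + n')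
            · rw [if_pos hA, if_pos]
              intro q hq
              rw [mem_insert, mem_insert, mem_singleton] at hq
              rcases hq with rfl | rfl | rfl
              · rw [if_neg n13]
                exact res_of (Ev_ce hA.1 i)
              · rw [if_neg hbb]
                exact res_of (Ev_ce hA.1 (!i))
              · rw [if_pos rfl]
                exact res_of (Ev_ce hA.2 (!j))
            · rw [if_neg hA]
              split_ifs
              · exact hp0 v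
              · exact le_rfl
          have h5 : 1 / ((ce i z : ℝ) * ((ce (!i) z : ℝ) * (ce (!j) z' : ℝ))) ≤ 1 / x ^ 3 := by
            apply one_div_le_one_div_of_le (by positivity)
            have e : x ^ 3 = x * (x * x) := by ring
            rw [e]
            apply mul_le_mul (hxge _ m1) _ (by positivity) (Nat.cast_nonneg _)
            exact mul_le_mul (hxge _ m2) (hxge _ m3) hx0.le (Nat.cast_nonneg _)
          have h6 := (abs_le.1 h2).2
          linarith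
      · rw [if_neg hnn, hE2]
        apply le_of_eq
        apply sum_eq_zero
        intro v _
        rw [if_neg]
        rintro ⟨hA, hB⟩
        apply hnn
        have h2 := Ev_ce hA i
        have h3 := Ev_ce hB j
        rw [← hij] at h3
        exact Int.ModEq.add_left_cancel' (t v) (h2.trans h3.symm)
    linarith
  · push Not at hsh
    have hne11 : z.1 ≠ z'.1 := hsh true true
    have hne12 : z.1 ≠ z'.2 := hsh true false
    have hne21 : z.2 ≠ z'.1 := hsh false true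
    have hne22 : z.2 ≠ z'.2 := hsh false false
    have h2 := hres {z.1, z.2, z'.1, z'.2} (by
      intro q hq
      rw [mem_insert, mem_insert, mem_insert, mem_singleton] at hq
      rcases hq with rfl | rfl | rfl | rfl
      · exact hz0.1
      · exact hz0.2.1
      · exact hz0'.1
      · exact hz0'.2.1) card_le_four (fun q => if q = z.1 ∨ q = z.2 then a q - n else a q - n')
    have h3 : ∏ q ∈ ({z.1, z.2, z'.1, z'.2} : Finset ℕ), (q : ℝ) = (z.1 : ℝ) * ((z.2 : ℝ) * ((z'.1 : ℝ) * (z'.2 : ℝ))) := by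
      rw [prod_insert, prod_insert, prod_pair hz0'.2.2]
      · rw [mem_insert, mem_singleton]
        push Not
        exact ⟨hne21, hne22⟩
      · rw [mem_insert, mem_insert, mem_singleton]
        push Not
        exact ⟨hz0.2.2, hne11, hne12⟩
    rw [h3] at h2
    have h4 : E2 ≤ ∑ v ∈ Ω, (if ∀ q ∈ ({z.1, z.2, z'.1, z'.2} : Finset ℕ),
        t v ≡ (if q = z.1 ∨ q = z.2 then a q - n else a q - n') [ZMOD (q : ℤ)] then p v else 0) := by
      rw [hE2]
      apply sum_le_sum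
      intro v _
      by_cases hA : Ev a z (t v + n) ∧ Ev a z' (t v + n')
      · rw [if_pos hA, if_pos]
        intro q hq
        rw [mem_insert, mem_insert, mem_insert, mem_singleton] at hq
        rcases hq with rfl | rfl | rfl | rfl
        · rw [if_pos (Or.inl rfl)]
          exact res_of hA.1.1
        · rw [if_pos (Or.inr rfl)]
          exact res_of hA.1.2
        · rw [if_neg (by push Not; exact ⟨hne11.symm, hne21.symm⟩)]
          exact res_of hA.2.1
        · rw [if_neg (by push Not; exact ⟨hne12.symm, hne22.symm⟩)]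
          exact res_of hA.2.2
      · rw [if_neg hA]
        split_ifs
        · exact hp0 v
        · exact le_rfl
    have h5 : 1 / ((z.1 : ℝ) * ((z.2 : ℝ) * ((z'.1 : ℝ) * (z'.2 : ℝ)))) = w * w' := by
      rw [hw, hw', one_div_mul_one_div]
      congr 1
      ring
    rw [h5] at h2
    have h6 := (abs_le.1 h2).2
    have h7 := hTs true true
    have h8 := hTh0 true true
    have h9 : w' * (w - δ) ≤ w' * E1 := mul_le_mul_of_nonneg_left (by linarith) hw0'
    have h10 : w * (w' - δ) ≤ w * E1' := mul_le_mul_of_nonneg_left (by linarith) hw0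
    have h11 : w * δ ≤ 1 * δ := mul_le_mul_of_nonneg_right (by linarith) hδ0
    have h12 : w' * δ ≤ 1 * δ := mul_le_mul_of_nonneg_right (by linarith) hδ0
    linarith

open Classical in
/-- **the second moment of the overlaps** -/
theorem second_moment (hp0 : ∀ v, 0 ≤ p v) (hp1 : ∑ v ∈ Ω, p v = 1) (hx : 2 ≤ x) (hP : Near P x) (hδ0 : 0 ≤ δ)
    (hres : ∀ S ⊆ P, S.card ≤ 4 → ∀ ρ : ℕ → ℤ, |∑ v ∈ Ω, (if ∀ q ∈ S, t v ≡ ρ q [ZMOD (q : ℤ)] then p v else 0) -
      1 / ∏ q ∈ S, (q : ℝ)| ≤ δ) (N : ℕ) (hN : x ≤ N) :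
    ∑ v ∈ Ω, p v * (∑ z ∈ P.offDiag, ∑ n ∈ Ioc (0 : ℤ) N,
      ((if Ev a z (t v + n) then (1 : ℝ) else 0) - 1 / ((z.1 : ℝ) * z.2))) ^ 2 ≤
      (P.card : ℝ) ^ 2 * (N * (3 * δ * ((P.card : ℝ) ^ 2 * N) +
        4 * (P.card * (2 * N / x * (1 / x ^ 3 + δ) + N * (1 / x ^ 4)) + 2 * N / x * (1 / x ^ 2)))) := by
  have hx0 : 0 < x := by linarith
  obtain ⟨f, hf⟩ : ∃ f : ℕ × ℕ → ℤ → ℕ → ℝ, f = fun z n v => (if Ev a z (t v + n) then (1 : ℝ) else 0) - 1 / ((z.1 : ℝ) * z.2) := ⟨_, rfl⟩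
  obtain ⟨B, hB⟩ : ∃ B : ℝ, B = 3 * δ * ((P.card : ℝ) ^ 2 * N) +
        4 * (P.card * (2 * N / x * (1 / x ^ 3 + δ) + N * (1 / x ^ 4)) + 2 * N / x * (1 / x ^ 2)) := ⟨_, rfl⟩
  rw [← hB]
  have hB0 : 0 ≤ B := by rw [hB]; positivity
  have hoff : (P.offDiag.card : ℝ) ≤ (P.card : ℝ) ^ 2 := by
    have h2 : P.offDiag.card ≤ P.card * P.card := by
      rw [offDiag_card]
      omega
    have h3 : (P.offDiag.card : ℝ) ≤ ((P.card * P.card : ℕ) : ℝ) := by exact_mod_cast h2
    push_cast at h3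
    nlinarith
  have hIoc : (((Ioc (0 : ℤ) N).card : ℕ) : ℝ) = N := by
    rw [Int.card_Ioc, sub_zero, Int.toNat_natCast]
  have e1 : ∑ v ∈ Ω, p v * (∑ z ∈ P.offDiag, ∑ n ∈ Ioc (0 : ℤ) N,
      ((if Ev a z (t v + n) then (1 : ℝ) else 0) - 1 / ((z.1 : ℝ) * z.2))) ^ 2 =
      ∑ z ∈ P.offDiag, ∑ n ∈ Ioc (0 : ℤ) N, ∑ z' ∈ P.offDiag, ∑ n' ∈ Ioc (0 : ℤ) N, ∑ v ∈ Ω, p v * (f z n v * f z' n' v) := by
    have e2 : ∀ v, (∑ z ∈ P.offDiag, ∑ n ∈ Ioc (0 : ℤ) N,
      ((if Ev a z (t v + n) then (1 : ℝ) else 0) - 1 / ((z.1 : ℝ) * z.2))) ^ 2 =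
      ∑ z ∈ P.offDiag, ∑ n ∈ Ioc (0 : ℤ) N, ∑ z' ∈ P.offDiag, ∑ n' ∈ Ioc (0 : ℤ) N, f z n v * f z' n' v := by
      intro v
      rw [sq, sum_mul]
      apply sum_congr rfl
      intro z _
      rw [sum_mul]
      apply sum_congr rfl
      intro n _
      rw [mul_sum]
      apply sum_congr rfl
      intro z' _
      rw [mul_sum]
      apply sum_congr rfl
      intro n' _
      rw [hf]
    simp_rw [e2, mul_sum]
    rw [sum_comm]
    apply sum_congr rfl
    intro z _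
    rw [sum_comm]
    apply sum_congr rfl
    intro n _
    rw [sum_comm]
    apply sum_congr rfl
    intro z' _
    rw [sum_comm]
  rw [e1]
  have h1 : ∀ z ∈ P.offDiag, ∀ n ∈ Ioc (0 : ℤ) N, ∑ z' ∈ P.offDiag, ∑ n' ∈ Ioc (0 : ℤ) N, ∑ v ∈ Ω, p v * (f z n v * f z' n' v) ≤ B := by
    intro z hz n _
    have h2 : ∑ z' ∈ P.offDiag, ∑ n' ∈ Ioc (0 : ℤ) N, ∑ v ∈ Ω, p v * (f z n v * f z' n' v) ≤
        ∑ z' ∈ P.offDiag, ∑ n' ∈ Ioc (0 : ℤ) N, (3 * δ + ∑ i : Bool, ∑ j : Bool, Th x δ i j z n z' n') := by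
      apply sum_le_sum
      intro z' hz'
      apply sum_le_sum
      intro n' _
      have := two_pairs (a := a) hp0 hp1 hx hP hδ0 hres hz hz' n n'
      rw [hf]
      exact this
    refine h2.trans ?_
    simp_rw [sum_add_distrib]
    have h3 : ∑ z' ∈ P.offDiag, ∑ n' ∈ Ioc (0 : ℤ) N, 3 * δ ≤ 3 * δ * ((P.card : ℝ) ^ 2 * N) := by
      rw [sum_const, sum_const, nsmul_eq_mul, nsmul_eq_mul, hIoc]
      have h4 : 0 ≤ (N : ℝ) * (3 * δ) := by positivity
      have h5 := mul_le_mul_of_nonneg_right hoff h4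
      linarith
    have h6 : ∑ z' ∈ P.offDiag, ∑ n' ∈ Ioc (0 : ℤ) N, ∑ i : Bool, ∑ j : Bool, Th x δ i j z n z' n' ≤
        4 * (P.card * (2 * N / x * (1 / x ^ 3 + δ) + N * (1 / x ^ 4)) + 2 * N / x * (1 / x ^ 2)) := by
      have h7 : ∑ z' ∈ P.offDiag, ∑ n' ∈ Ioc (0 : ℤ) N, ∑ i : Bool, ∑ j : Bool, Th x δ i j z n z' n' =
          ∑ i : Bool, ∑ j : Bool, ∑ z' ∈ P.offDiag, ∑ n' ∈ Ioc (0 : ℤ) N, Th x δ i j z n z' n' := by
        simp_rw [Fintype.sum_bool, sum_add_distrib]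
      rw [h7]
      have h8 : ∀ i j : Bool, ∑ z' ∈ P.offDiag, ∑ n' ∈ Ioc (0 : ℤ) N, Th x δ i j z n z' n' ≤
          P.card * (2 * N / x * (1 / x ^ 3 + δ) + N * (1 / x ^ 4)) + 2 * N / x * (1 / x ^ 2) := by
        intro i j
        have := shared_sum P x hx0 hP N hN (1 / x ^ 3 + δ) (1 / x ^ 2) (1 / x ^ 4) (by positivity) (by positivity) (by positivity) i j z n
        refine le_trans (le_of_eq ?_) this
        unfold Th
        congr!
      rw [Fintype.sum_bool, Fintype.sum_bool, Fintype.sum_bool]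
      have g1 := h8 true true
      have g2 := h8 true false
      have g3 := h8 false true
      have g4 := h8 false false
      linarith
    rw [hB]
    linarith
  have h9 : ∑ z ∈ P.offDiag, ∑ n ∈ Ioc (0 : ℤ) N, ∑ z' ∈ P.offDiag, ∑ n' ∈ Ioc (0 : ℤ) N, ∑ v ∈ Ω, p v * (f z n v * f z' n' v) ≤
      ∑ z ∈ P.offDiag, ∑ n ∈ Ioc (0 : ℤ) N, B := sum_le_sum fun z hz => sum_le_sum fun n hn => h1 z hz n hn
  refine h9.trans ?_
  rw [sum_const, sum_const, nsmul_eq_mul, nsmul_eq_mul, hIoc]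
  exact mul_le_mul_of_nonneg_right hoff (by positivity)

end

end Pool.Agent.Run7.h672.WT
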