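import Pool.Agent.Run7.h672.XC.X12
import Pool.Agent.N625.PT.X15
import Pool.Agent.Y877.SxI

set_option autoImplicit false

/-! Tuples of primes for random multiples of a small primorial, for any class of laws with small exponential sums, in the form
used in the applications (the second part and the lemmas on the primes are those of `Pool.Agent.Run7.h414.HL.G`, helper414). -/

namespace Pool.Agent.Run7.h672.WT
open Finset
open Pool.Agent.Run7.h672.XC (RCls tuple_law)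
open Pool.Agent.N625.PT (Nm)
open Pool.Agent.H373R2.T7 (Vz)

open Classical in
/-- tuples for several independent random multiples -/
theorem cls_tuple {b L T : ℕ} {𝒞 : ℕ → (ℕ → ℝ) → Prop} (hcls : RCls b L T 𝒞) (r : ℕ) (κ : Fin r → ℤ) (hκ : ∀ j, κ j ≠ 0)
    (B J A C K₁ : ℕ) (θ : ℝ) (hθ : 0 < θ) (ε : ℝ) (hε : 0 < ε) (hε1 : ε ≤ 1) :
    ∃ k₀ : ℕ, ∀ k : ℕ, k₀ ≤ k → ∀ p : Fin r → ℕ → ℝ, (∀ j, 𝒞 k (p j)) →
    ∀ y : ℕ, θ * Real.log k ≤ y → y ≤ K₁ * Real.log k → ∀ c : Fin r → ℤ, (∀ j, |c j| ≤ B * (b : ℤ) ^ k) →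
    ∀ h : Fin r → ℕ, (∀ j, 1 ≤ h j ∧ h j ≤ k ^ J) → ∀ X : ℕ, b ^ k ≤ X * k ^ C → X ≤ b ^ k * k ^ C →
    ∀ (I : Finset ℕ) (f : Fin r → ℕ → ℕ), (∀ j, Set.InjOn (f j) I) →
    (∀ j, ∀ i ∈ I, 1 ≤ f j i ∧ f j i ≤ X ∧ (f j i).Coprime (primorial y * h j)) → (X : ℝ) ≤ I.card * (k : ℝ) ^ A →
    ∀ G : (Fin r → ℕ) → Prop, (∀ v, (∀ j, 0 < Nm y (h j) (c j) (κ j) (v j)) →
        |((I.filter (fun i => ∀ j : Fin r, (Nm y (h j) (c j) (κ j) (v j) + (f j i : ℕ)).toNat.Prime)).card : ℝ) -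
          I.card / (Vz y * (k * Real.log b)) ^ r| ≤ ε * (I.card / (Vz y * (k * Real.log b)) ^ r) → G v) →
    ∑ v ∈ Fintype.piFinset (fun _ : Fin r => range (b ^ k)),
      (if (∀ j, 0 < Nm y (h j) (c j) (κ j) (v j)) → G v then 0 else ∏ j, p j (v j)) ≤ ε := by
  obtain ⟨k₀, h0⟩ := tuple_law hcls r κ hκ B J A C K₁ θ hθ ε hε hε1
  refine ⟨k₀, fun k hk p hp y hy1 hy2 c hc h hh X hX1 hX2 I f hinj hf hIA G hG => ?_⟩
  have h1 := h0 k hk p hp y hy1 hy2 c hc h hh X hX1 hX2 I f hinj hf hIA (fun _ => 1) (fun _ => Or.inl rfl)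
  refine le_trans (sum_le_sum fun v _ => ?_) h1
  have hw0 : 0 ≤ ∏ j, p j (v j) := prod_nonneg fun j _ => hcls.nonneg k (p j) (hp j) _
  by_cases hgood : (∀ j, 0 < Nm y (h j) (c j) (κ j) (v j)) → G v
  · rw [if_pos hgood]
    split_ifs
    · exact le_rfl
    · exact hw0
  · rw [if_neg hgood, if_neg]
    intro hall
    apply hgood
    intro hpos
    apply hG v hpos
    have hq := hall (by
      intro j i hi
      have := hpos j
      positivity) r le_rfl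
    have hset : I.filter (fun i => ∀ j : Fin r, (j : ℕ) < r → (Nm y (h j) (c j) (κ j) (v j) + 1 * (f j i : ℕ)).toNat.Prime) =
        I.filter (fun i => ∀ j : Fin r, (Nm y (h j) (c j) (κ j) (v j) + (f j i : ℕ)).toNat.Prime) := by
      apply filter_congr
      intro i _
      constructor
      · intro g j
        have := g j j.2
        rwa [one_mul] at this
      · intro g j _
        rw [one_mul]
        exact g j
    rwa [hset] at hq

set_option maxHeartbeats 1000000 in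
open Classical in
/-- the same, when a few numbers are not coprime to the multipliers -/
theorem cls_tuple' {b L T : ℕ} {𝒞 : ℕ → (ℕ → ℝ) → Prop} (hcls : RCls b L T 𝒞) (r : ℕ) (κ : Fin r → ℤ) (hκ : ∀ j, κ j ≠ 0)
    (B J A C U K₁ : ℕ) (θ : ℝ) (hθ : 0 < θ) (ε : ℝ) (hε : 0 < ε) (hε1 : ε ≤ 1) :
    ∃ k₀ : ℕ, ∀ k : ℕ, k₀ ≤ k → ∀ p : Fin r → ℕ → ℝ, (∀ j, 𝒞 k (p j)) →
    ∀ y : ℕ, θ * Real.log k ≤ y → y ≤ K₁ * Real.log k → ∀ c : Fin r → ℤ, (∀ j, |c j| ≤ B * (b : ℤ) ^ k) →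
    ∀ h : Fin r → ℕ, (∀ j, 1 ≤ h j ∧ h j ≤ k ^ J) → ∀ X : ℕ, b ^ k ≤ X * k ^ C → X ≤ b ^ k * k ^ C →
    ∀ (I : Finset ℕ) (f : Fin r → ℕ → ℕ), (∀ j, Set.InjOn (f j) I) → (∀ j, ∀ i ∈ I, 1 ≤ f j i ∧ f j i ≤ X) →
    (I.filter (fun i => ∃ j, ¬ (f j i).Coprime (primorial y * h j))).card ≤ k ^ U → X ≤ I.card * k ^ A →
    ∀ G : (Fin r → ℕ) → Prop, (∀ v, (∀ j, 0 < Nm y (h j) (c j) (κ j) (v j)) →
        |((I.filter (fun i => ∀ j : Fin r, (Nm y (h j) (c j) (κ j) (v j) + (f j i : ℕ)).toNat.Prime)).card : ℝ) -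
          I.card / (Vz y * (k * Real.log b)) ^ r| ≤ ε * (I.card / (Vz y * (k * Real.log b)) ^ r) → G v) →
    ∑ v ∈ Fintype.piFinset (fun _ : Fin r => range (b ^ k)),
      (if (∀ j, 0 < Nm y (h j) (c j) (κ j) (v j)) → G v then 0 else ∏ j, p j (v j)) ≤ ε := by
  have hb := hcls.two
  obtain ⟨k0, h0⟩ := cls_tuple hcls r κ hκ B J (A + 1) C K₁ θ hθ (ε / 4) (by linarith) (by linarith)
  obtain ⟨k1, h1⟩ := Pool.Agent.N625.PT.big_enough b A C (U + 2 * r) hb ε hε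
  obtain ⟨k2, h2⟩ := Pool.Agent.N625.PT.Q_large b K₁ hb 1
  refine ⟨max (max k0 k1) (max k2 2), fun k hk p hp y hy1 hy2 c hc h hh X hX1 hX2 I f hinj hf hbad hIA G hG => ?_⟩
  obtain ⟨hk2, hlb, hbig⟩ := h1 k (by omega)
  have hQ1 := h2 k (by omega) y hy2
  have hkr : (2 : ℝ) ≤ k := by exact_mod_cast hk2
  have hk0 : (0 : ℝ) < k := by linarith
  have hIAr : (X : ℝ) ≤ I.card * (k : ℝ) ^ A := by exact_mod_cast hIA
  have hb1 := hbig X hX1 I.card (Nat.cast_nonneg _) hIAr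
  obtain ⟨Q, hQ⟩ : ∃ Q, Q = Vz y * (k * Real.log b) := ⟨_, rfl⟩
  rw [← hQ] at hQ1
  have hQk : Q ≤ (k : ℝ) ^ 2 := by
    rw [hQ]
    calc Vz y * (k * Real.log b) ≤ 1 * (k * k) := mul_le_mul (Pool.Agent.H373R2.T7.Vz_le_one y) (mul_le_mul_of_nonneg_left hlb hk0.le)
          (mul_nonneg hk0.le (Real.log_natCast_nonneg b)) zero_le_one
      _ = _ := by ring
  obtain ⟨W, hW⟩ : ∃ W, W = Q ^ r := ⟨_, rfl⟩
  have hW1 : 1 ≤ W := by rw [hW]; exact one_le_pow₀ hQ1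
  have hW0 : 0 < W := by linarith
  have hWk : W ≤ (k : ℝ) ^ (2 * r) := by
    rw [hW, pow_mul]
    exact pow_le_pow_left₀ (by linarith) hQk _
  obtain ⟨E, hE⟩ : ∃ E : ℝ, E = (k : ℝ) ^ U := ⟨_, rfl⟩
  have hE0 : 0 ≤ E := by rw [hE]; positivity
  obtain ⟨m, hm⟩ : ∃ m : ℝ, m = I.card := ⟨_, rfl⟩
  rw [← hm] at hb1 hIAr
  have hEW : 4 * E * W ≤ ε * m := by
    refine le_trans ?_ hb1
    rw [pow_add, ← hE]
    calc 4 * E * W ≤ 4 * E * (k : ℝ) ^ (2 * r) := mul_le_mul_of_nonneg_left hWk (by positivity)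
      _ = _ := by ring
  have hEm : 4 * E ≤ ε * m := by
    refine le_trans ?_ hEW
    calc 4 * E = 4 * E * 1 := by ring
      _ ≤ 4 * E * W := mul_le_mul_of_nonneg_left hW1 (by positivity)
  have hm0 : 0 ≤ m := by rw [hm]; exact Nat.cast_nonneg _
  obtain ⟨I', hI'⟩ : ∃ I', I' = I.filter (fun i => ∀ j, (f j i).Coprime (primorial y * h j)) := ⟨_, rfl⟩
  have hsub : I' ⊆ I := by rw [hI']; exact filter_subset _ _
  obtain ⟨m', hm'⟩ : ∃ m' : ℝ, m' = I'.card := ⟨_, rfl⟩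
  have hdiff : I \ I' = I.filter (fun i => ∃ j, ¬ (f j i).Coprime (primorial y * h j)) := by
    ext i
    rw [mem_sdiff, hI', mem_filter, mem_filter]
    constructor
    · rintro ⟨g1, g2⟩
      refine ⟨g1, ?_⟩
      by_contra hcon
      push Not at hcon
      exact g2 ⟨g1, hcon⟩
    · rintro ⟨g1, j, hj⟩
      exact ⟨g1, fun g2 => hj (g2.2 j)⟩
  have hbad' : ((I \ I').card : ℝ) ≤ E := by
    rw [hdiff, hE]
    exact_mod_cast hbad
  have hmm : m ≤ m' + E := by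
    have : I.card = (I \ I').card + I'.card := (card_sdiff_add_card_eq_card hsub).symm
    have e : (I.card : ℝ) = (I \ I').card + I'.card := by exact_mod_cast this
    rw [hm, hm']
    linarith
  have hmm2 : m' ≤ m := by rw [hm, hm']; exact_mod_cast card_le_card hsub
  have hXI' : (X : ℝ) ≤ I'.card * (k : ℝ) ^ (A + 1) := by
    rw [← hm']
    have e1 : m ≤ 2 * m' := by nlinarith
    calc (X : ℝ) ≤ m * (k : ℝ) ^ A := hIAr
      _ ≤ (2 * m') * (k : ℝ) ^ A := mul_le_mul_of_nonneg_right e1 (by positivity)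
      _ = m' * ((k : ℝ) ^ A * 2) := by ring
      _ ≤ m' * ((k : ℝ) ^ A * k) := by
          apply mul_le_mul_of_nonneg_left _ (by rw [hm']; exact Nat.cast_nonneg _)
          exact mul_le_mul_of_nonneg_left hkr (by positivity)
      _ = _ := by rw [pow_succ]
  refine (h0 k (by omega) p hp y hy1 hy2 c hc h hh X hX1 hX2 I' f (fun j => (hinj j).mono (by exact_mod_cast hsub)) ?_ hXI' G ?_).trans
    (by linarith)
  · intro j i hi
    have hi' := hi
    rw [hI', mem_filter] at hi'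
    have := hf j i hi'.1
    exact ⟨this.1, this.2, hi'.2 j⟩
  · intro v hpos hv
    apply hG v hpos
    rw [← hQ, ← hW, ← hm'] at hv
    rw [← hQ, ← hW, ← hm]
    obtain ⟨n', hn'⟩ : ∃ n' : ℝ, n' = ((I'.filter (fun i => ∀ j : Fin r, (Nm y (h j) (c j) (κ j) (v j) + (f j i : ℕ)).toNat.Prime)).card : ℝ) := ⟨_, rfl⟩
    obtain ⟨n, hn⟩ : ∃ n : ℝ, n = ((I.filter (fun i => ∀ j : Fin r, (Nm y (h j) (c j) (κ j) (v j) + (f j i : ℕ)).toNat.Prime)).card : ℝ) := ⟨_, rfl⟩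
    rw [← hn'] at hv
    rw [← hn]
    have g1 : n' ≤ n := by
      rw [hn, hn']
      exact_mod_cast card_le_card (filter_subset_filter _ hsub)
    have g2 : n ≤ n' + E := by
      have : (I.filter (fun i => ∀ j : Fin r, (Nm y (h j) (c j) (κ j) (v j) + (f j i : ℕ)).toNat.Prime)).card ≤
          (I'.filter (fun i => ∀ j : Fin r, (Nm y (h j) (c j) (κ j) (v j) + (f j i : ℕ)).toNat.Prime)).card + (I \ I').card := by
        rw [← card_union_of_disjoint]
        · apply card_le_card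
          intro i hi
          rw [mem_filter] at hi
          rw [mem_union, mem_filter, mem_sdiff]
          by_cases hi' : i ∈ I'
          · exact Or.inl ⟨hi', hi.2⟩
          · exact Or.inr ⟨hi.1, hi'⟩
        · rw [disjoint_left]
          intro i hi hi2
          rw [mem_filter] at hi
          rw [mem_sdiff] at hi2
          exact hi2.2 hi.1
      have e : n ≤ n' + ((I \ I').card : ℝ) := by
        rw [hn, hn']
        exact_mod_cast this
      linarith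
    have g3 : E ≤ ε / 4 * (m / W) := by
      rw [mul_div_assoc', le_div_iff₀ hW0]
      linarith
    have g4 : m' / W ≤ m / W := div_le_div_of_nonneg_right hmm2 hW0.le
    have g5 : m / W ≤ m' / W + E := by
      have : m / W ≤ (m' + E) / W := div_le_div_of_nonneg_right hmm hW0.le
      have e2 : E / W ≤ E := div_le_self hE0 hW1
      rw [add_div] at this
      linarith
    obtain ⟨c1, c2⟩ := abs_le.1 hv
    have g6 : ε / 4 * (m' / W) ≤ ε / 4 * (m / W) := mul_le_mul_of_nonneg_left g4 (by linarith)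
    have g7 : 0 ≤ ε / 4 * (m / W) := le_trans hE0 g3
    rw [abs_le]
    constructor
    · linarith
    · linarith

/-- few elements of a set of primes divide `D` -/
lemma bad_few (I : Finset ℕ) (g : ℕ → ℕ) (hinj : Set.InjOn g I) (hp : ∀ i ∈ I, (g i).Prime) (D : ℕ) (hD : 1 ≤ D) :
    (I.filter (fun i => ¬ (g i).Coprime D)).card ≤ D := by
  calc (I.filter (fun i => ¬ (g i).Coprime D)).card ≤ (Icc 1 D).card := by
        apply card_le_card_of_injOn g
        · intro i hi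
          rw [coe_filter, Set.mem_ofPred_eq] at hi
          rw [coe_Icc, Set.mem_Icc]
          have h1 := hp i hi.1
          refine ⟨h1.one_le, ?_⟩
          have h2 := (Nat.Prime.dvd_iff_not_coprime h1).2 hi.2
          exact Nat.le_of_dvd (by omega) h2
        · intro i hi j hj hij
          rw [coe_filter, Set.mem_ofPred_eq] at hi hj
          exact hinj hi.1 hj.1 hij
    _ = D := by rw [Nat.card_Icc]; omega

/-- the `n`-th prime, `n ≥ 1` -/
noncomputable def pr (n : ℕ) : ℕ := Nat.nth Nat.Prime (n - 1)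

lemma pr_prime (n : ℕ) : (pr n).Prime := Nat.prime_nth_prime _

lemma pr_lt (n : ℕ) (hn : 1 ≤ n) : n < pr n := by
  unfold pr
  have := Nat.add_two_le_nth_prime (n - 1)
  omega

lemma pr_strict {m n : ℕ} (hm : 1 ≤ m) (h : m < n) : pr m < pr n :=
  Nat.nth_strictMono Nat.infinite_setOfPred_prime (by omega)

lemma pr_inj {m n : ℕ} (hm : 1 ≤ m) (hn : 1 ≤ n) (h : pr m = pr n) : m = n := by
  rcases lt_trichotomy m n with hlt | heq | hlt
  · exact absurd h (pr_strict hm hlt).ne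
  · exact heq
  · exact absurd h (pr_strict hn hlt).ne'

lemma pr_le (b C : ℕ) (hb : 2 ≤ b) : ∃ k₀ : ℕ, ∀ k : ℕ, k₀ ≤ k → ∀ X : ℕ, b ^ k ≤ X * k ^ C → X ≤ b ^ k * k ^ C →
    ∀ m : ℕ, m ≤ 4 * X → pr m ≤ X * k ^ 4 ∧ pr (pr m) ≤ X * k ^ 10 := by
  obtain ⟨k1, h1⟩ := Pool.Agent.N625.PT.X_large b C hb
  obtain ⟨k2, h2⟩ := Pool.Agent.N625.PT.log_X b C hb
  obtain ⟨n3, h3⟩ := Pool.Agent.Y877.SX.nth_le_log
  obtain ⟨n4, h4⟩ := Pool.Agent.Y877.SX.nth_nth_le_log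
  refine ⟨max (max k1 k2) (max n3 n4), fun k hk X hX1 hX2 m hm => ?_⟩
  have hkx := h1 k (by omega) X hX1
  have hlx := h2 k (by omega) X hX2
  have hln : 0 ≤ Real.log X := Real.log_natCast_nonneg X
  have hx0 : (0 : ℝ) ≤ X := Nat.cast_nonneg X
  constructor
  · have g1 : ((pr m : ℕ) : ℝ) ≤ X * (k : ℝ) ^ 4 := by
      refine (h3 X (by omega) (m - 1) (by omega)).trans ?_
      apply mul_le_mul_of_nonneg_left _ hx0
      calc Real.log X ^ 2 ≤ ((k : ℝ) ^ 2) ^ 2 := pow_le_pow_left₀ hln hlx _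
        _ = (k : ℝ) ^ 4 := by rw [← pow_mul]
    exact_mod_cast g1
  · have g1 : ((pr (pr m) : ℕ) : ℝ) ≤ X * (k : ℝ) ^ 10 := by
      refine (h4 X (by omega) (m - 1) (by omega)).trans ?_
      apply mul_le_mul_of_nonneg_left _ hx0
      calc Real.log X ^ 5 ≤ ((k : ℝ) ^ 2) ^ 5 := pow_le_pow_left₀ hln hlx _
        _ = (k : ℝ) ^ 10 := by rw [← pow_mul]
    exact_mod_cast g1

end Pool.Agent.Run7.h672.WT
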