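import Pool.Agent.Y887.TD.FLemU
import Pool.Agent.N625.PT.X2
import Pool.Agent.Run7.h672.XC.D

set_option autoImplicit false

/-! The fundamental lemma for a class of laws with small exponential sums: primes up to `exp (δ √k)`. -/

namespace Pool.Agent.Run7.h672.WT
open Pool.Agent.N625.PT
open Pool.Agent.Run7.h672.XC
open Finset
open Pool.Agent.H373R2.T7 (nuB PerB nuB_le)

/-- the number of sets of primes with small product -/
lemma card_small_prod (P : Finset ℕ) (hP : ∀ q ∈ P, q.Prime) (D : ℕ) :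
    (P.powerset.filter (fun S : Finset ℕ => ∏ q ∈ S, q ≤ D)).card ≤ D + 1 := by
  calc (P.powerset.filter (fun S : Finset ℕ => ∏ q ∈ S, q ≤ D)).card ≤ (range (D + 1)).card := by
        apply card_le_card_of_injOn (fun S : Finset ℕ => ∏ q ∈ S, q)
        · intro S hS
          rw [mem_coe, mem_filter] at hS
          rw [mem_coe, mem_range]
          have := hS.2
          simp only
          omega
        · intro S hS S' hS' h
          rw [mem_coe, mem_filter, mem_powerset] at hS hS'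
          simp only at h
          have h1 := Nat.primeFactors_prod (fun q hq => hP q (hS.1 hq))
          have h2 := Nat.primeFactors_prod (fun q hq => hP q (hS'.1 hq))
          rw [← h1, ← h2, h]
    _ = D + 1 := card_range _

lemma ev_exp (n : ℕ) (K : ℝ) (hK : 0 < K) : ∃ k₀ : ℕ, ∀ k : ℕ, k₀ ≤ k →
    K * (Real.sqrt k) ^ n ≤ Real.exp (Real.sqrt k) ∧ K ≤ Real.sqrt k := by
  have h1 := Real.tendsto_pow_mul_exp_neg_atTop_nhds_zero n
  have h2 := h1.eventually_le_const (show (0 : ℝ) < 1 / K by positivity)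
  obtain ⟨X, hX⟩ := Filter.eventually_atTop.1 h2
  obtain ⟨N, hN⟩ := exists_nat_ge (max X K)
  refine ⟨N ^ 2, fun k hk => ?_⟩
  have h3 : (N : ℝ) ≤ Real.sqrt k := by
    apply Real.le_sqrt_of_sq_le
    exact_mod_cast hk
  have h4 := hX (Real.sqrt k) ((le_max_left _ _).trans (hN.trans h3))
  refine ⟨?_, (le_max_right _ _).trans (hN.trans h3)⟩
  rw [Real.exp_neg] at h4
  have h5 := Real.exp_pos (Real.sqrt k)
  rw [← div_eq_mul_inv, div_le_div_iff₀ h5 hK] at h4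
  linarith

set_option maxHeartbeats 2000000 in
open Classical in
/-- the fundamental lemma for a law with small exponential sums -/
theorem law_fund {b L T : ℕ} {𝒞 : ℕ → (ℕ → ℝ) → Prop} (hcls : RCls b L T 𝒞) (c U : ℕ) :
    ∃ z₀ : ℕ, ∃ δ : ℝ, 0 < δ ∧ ∃ k₀ : ℕ, ∀ k : ℕ, k₀ ≤ k → ∀ p, 𝒞 k p → ∀ J : ℕ, (2 : ℝ) ^ J ≤ δ * Real.sqrt k →
    ∀ z : ℕ, z₀ ≤ z → ∀ Q : ℕ → ℕ → Prop, PerB Q c →
    |∑ v ∈ (range (b ^ k)).filter (fun v => ∀ q ∈ (Ioc z (2 ^ 2 ^ J)).filter Nat.Prime, ¬ Q q v), p v -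
      ∏ q ∈ (Ioc z (2 ^ 2 ^ J)).filter Nat.Prime, (1 - (nuB Q q : ℝ) / q)| ≤
      1 / 2 * ∏ q ∈ (Ioc z (2 ^ 2 ^ J)).filter Nat.Prime, (1 - (nuB Q q : ℝ) / q) + 1 / (k : ℝ) ^ U := by
  have hb := hcls.two
  have hL := hcls.one
  obtain ⟨μ, hμ0, hμ1, hchar⟩ := hcls.char
  obtain ⟨N1, hN1⟩ := Pool.Agent.Y887.TD.fLemU
  obtain ⟨B, hB⟩ : ∃ B, B = N1 * c + 2 * c + 10 := ⟨_, rfl⟩
  obtain ⟨M, hM⟩ : ∃ M, M = B * B := ⟨_, rfl⟩
  have hB10 : 10 ≤ B := by omega
  have hM1 : 1 ≤ M := by rw [hM]; nlinarith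
  obtain ⟨lam, hlam⟩ : ∃ lam, lam = -Real.log μ := ⟨_, rfl⟩
  have hlam0 : 0 < lam := by rw [hlam]; have := Real.log_neg hμ0 hμ1; linarith
  obtain ⟨ε, hε⟩ : ∃ ε : ℝ, ε = min 1 (lam / 4) := ⟨_, rfl⟩
  have hε0 : 0 < ε := by rw [hε]; exact lt_min one_pos (by positivity)
  have hε1 : ε ≤ 1 := by rw [hε]; exact min_le_left _ _
  have hε2 : ε ≤ lam / 4 := by rw [hε]; exact min_le_right _ _
  have hMr : (1 : ℝ) ≤ M := by exact_mod_cast hM1
  obtain ⟨K, hK⟩ : ∃ K : ℝ, K = max (Real.exp (lam * (1 + L))) (4 / ε) := ⟨_, rfl⟩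
  have hK1 : Real.exp (lam * (1 + L)) ≤ K := by rw [hK]; exact le_max_left _ _
  have hK2 : 4 / ε ≤ K := by rw [hK]; exact le_max_right _ _
  have hK0 : 0 < K := lt_of_lt_of_le (Real.exp_pos _) hK1
  obtain ⟨k1, hk1⟩ := ev_exp (2 * (T + U) + 2) K hK0
  obtain ⟨N2, hN2⟩ := exists_nat_ge (ε * (L + 1))
  refine ⟨max (max B (b ^ L)) c, ε / (2 * M), by positivity, max k1 (max 1 (N2 ^ 2)), fun k hk p hp J hJ z hz Q hQ => ?_⟩
  have b1 : k1 ≤ k := (le_max_left _ _).trans hk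
  have b2 : 1 ≤ k := ((le_max_left _ _).trans (le_max_right _ _)).trans hk
  have b3 : N2 ^ 2 ≤ k := ((le_max_right _ _).trans (le_max_right _ _)).trans hk
  have hzB : B ≤ z := ((le_max_left _ _).trans (le_max_left _ _)).trans hz
  have hzL : b ^ L ≤ z := ((le_max_right _ _).trans (le_max_left _ _)).trans hz
  have hzc : c ≤ z := (le_max_right _ _).trans hz
  obtain ⟨hev1, hev2⟩ := hk1 k b1
  obtain ⟨s, hs⟩ : ∃ s, s = Real.sqrt k := ⟨_, rfl⟩
  rw [← hs] at hev1 hev2 hJ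
  have hk0 : (0 : ℝ) < k := by exact_mod_cast b2
  have hss : s * s = k := by rw [hs]; exact Real.mul_self_sqrt hk0.le
  have hs0 : 0 < s := by rw [hs]; exact Real.sqrt_pos.2 hk0
  have hs4 : 4 / ε ≤ s := hK2.trans hev2
  have hεs : 4 ≤ ε * s := by
    rw [div_le_iff₀ hε0] at hs4
    linarith
  have hs4' : 4 ≤ s := by nlinarith
  have hsN : ε * (L + 1) ≤ s := by
    refine hN2.trans ?_
    rw [hs]
    apply Real.le_sqrt_of_sq_le
    exact_mod_cast b3
  obtain ⟨m, hm⟩ : ∃ m, m = M * 2 ^ J + 1 := ⟨_, rfl⟩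
  have hm1 : 1 ≤ m := by omega
  have hm0 : (0 : ℝ) < m := by exact_mod_cast hm1
  have hmr : (m : ℝ) ≤ ε * s := by
    have h1 : (m : ℝ) = M * 2 ^ J + 1 := by rw [hm]; push_cast; ring
    rw [h1]
    have h2 : (M : ℝ) * 2 ^ J ≤ M * (ε / (2 * M) * s) := mul_le_mul_of_nonneg_left hJ (by linarith)
    have h3 : (M : ℝ) * (ε / (2 * M) * s) = ε * s / 2 := by field_simp
    linarith
  have hkm : s / ε - 1 ≤ ((k / m : ℕ) : ℝ) := by
    have h1 : (k : ℝ) / m < ((k / m : ℕ) : ℝ) + 1 := by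
      rw [div_lt_iff₀ hm0]
      have h2 : k < m * (k / m) + m := Nat.lt_mul_div_succ k hm1
      have h3 : (k : ℝ) < m * ((k / m : ℕ) : ℝ) + m := by exact_mod_cast h2
      linarith
    have h2 : s / ε ≤ k / m := by
      rw [div_le_div_iff₀ hε0 hm0, ← hss]
      calc s * m ≤ s * (ε * s) := mul_le_mul_of_nonneg_left hmr hs0.le
        _ = s * s * ε := by ring
    linarith
  have hLk : L ≤ k / m := by
    have h2 : (L : ℝ) + 1 ≤ s / ε := by
      rw [le_div_iff₀ hε0]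
      linarith
    have h3 : (L : ℝ) ≤ ((k / m : ℕ) : ℝ) := by linarith
    exact_mod_cast h3
  obtain ⟨Bd, hBd⟩ : ∃ Bd : ℝ, Bd = (k : ℝ) ^ T * μ ^ (k / m - L) := ⟨_, rfl⟩
  have hBd0 : 0 ≤ Bd := by rw [hBd]; positivity
  obtain ⟨P, hP⟩ : ∃ P, P = (Ioc z (2 ^ 2 ^ J)).filter Nat.Prime := ⟨_, rfl⟩
  rw [← hP]
  have hPm : ∀ q ∈ P, q.Prime ∧ z < q ∧ q ≤ 2 ^ 2 ^ J := by
    intro q hq
    rw [hP, mem_filter, mem_Ioc] at hq
    exact ⟨hq.2, hq.1.1, hq.1.2⟩
  obtain ⟨D, hD⟩ : ∃ D, D = (2 ^ 2 ^ J) ^ (B * B) := ⟨_, rfl⟩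
  have hDm : D + 1 ≤ 2 ^ m := by
    have h1 : D = 2 ^ (M * 2 ^ J) := by rw [hD, ← pow_mul, ← hM, mul_comm]
    have h2 : 1 ≤ 2 ^ (M * 2 ^ J) := Nat.one_le_two_pow
    rw [h1, hm, pow_succ]
    omega
  have hprod0 : 0 ≤ ∏ q ∈ P, (1 - (nuB Q q : ℝ) / q) := by
    apply prod_nonneg
    intro q hq
    have hq0 : (0 : ℝ) < q := by exact_mod_cast (hPm q hq).1.pos
    rw [sub_nonneg, div_le_one hq0]
    exact_mod_cast nuB_le Q q
  have key := hN1 c B J z P (fun q => (nuB Q q : ℝ) / q) (by rw [hB]) (by rw [← hB]; exact hzB) hPm (by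
      intro q hq
      have hq2 : (2 : ℝ) ≤ q := by exact_mod_cast (hPm q hq).1.two_le
      refine ⟨by positivity, ?_⟩
      have h1 : (nuB Q q : ℝ) ≤ c := by exact_mod_cast hQ.few q (hPm q hq).1
      calc (nuB Q q : ℝ) / q ≤ c / q := div_le_div_of_nonneg_right h1 (by linarith)
        _ ≤ c / ((q : ℝ) - 1) := div_le_div_of_nonneg_left (Nat.cast_nonneg c) (by linarith) (by linarith))
    (range (b ^ k)) p Q 1 (fun _ => (D : ℝ) * Bd) (fun i _ => (hcls.nonneg _ _ hp) i) zero_le_one (by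
      intro S hS hSD
      rw [← hB, ← hD] at hSD
      have hSp : ∀ q ∈ S, q.Prime := fun q hq => (hPm q (hS hq)).1
      have hSL : ∀ q ∈ S, b ^ L < q := fun q hq => lt_of_le_of_lt hzL (hPm q (hS hq)).2.1
      obtain ⟨d, hd⟩ : ∃ d, d = ∏ q ∈ S, q := ⟨_, rfl⟩
      have hd1 : 1 ≤ d := by rw [hd]; exact Nat.one_le_iff_ne_zero.2 (prod_ne_zero_iff.2 fun q hq => (hSp q hq).ne_zero)
      have hdm : ∏ q ∈ S, q < 2 ^ m := by omega
      have h1 := equi (b ^ k) d hd1 p (hcls.sum _ _ hp) Bd (by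
        intro a ha1 ha2
        rw [hd] at ha2 ⊢
        rw [hBd]
        exact hchar k p hp S (fun q hq => ⟨hSp q hq, hSL q hq⟩) m hm1 hdm hLk a ha1 ha2) hBd0
        ((range d).filter (fun n => ∀ q ∈ S, Q q n)) (filter_subset _ _)
      have h2 := cls_card Q hQ.per S hSp
      rw [← hd] at h2
      rw [h2] at h1
      have e1 : ∑ i ∈ (range (b ^ k)).filter (fun i => ∀ p ∈ S, Q p i), p i =
          ∑ v ∈ range (b ^ k), (if v % d ∈ (range d).filter (fun n => ∀ q ∈ S, Q q n) then p v else 0) := by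
        rw [sum_filter]
        apply sum_congr rfl
        intro v _
        have e2 : (∀ p ∈ S, Q p v) ↔ v % d ∈ (range d).filter (fun n => ∀ q ∈ S, Q q n) := by
          rw [mem_filter, mem_range]
          constructor
          · intro h
            refine ⟨Nat.mod_lt _ hd1, fun q hq => ?_⟩
            have hqd : q ∣ d := by rw [hd]; exact dvd_prod_of_mem _ hq
            rw [hQ.per, Nat.mod_mod_of_dvd _ hqd, ← hQ.per]
            exact h q hq
          · rintro ⟨_, h⟩ q hq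
            have hqd : q ∣ d := by rw [hd]; exact dvd_prod_of_mem _ hq
            have := h q hq
            rw [hQ.per, Nat.mod_mod_of_dvd _ hqd, ← hQ.per] at this
            exact this
        by_cases h3 : ∀ p ∈ S, Q p v
        · rw [if_pos h3, if_pos (e2.1 h3)]
        · rw [if_neg h3, if_neg (fun h => h3 (e2.2 h))]
      have e3 : (1 : ℝ) * ∏ q ∈ S, (nuB Q q : ℝ) / q = ((∏ q ∈ S, nuB Q q : ℕ) : ℝ) / d := by
        rw [one_mul, prod_div_distrib, hd]
        push_cast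
        rfl
      rw [e1, e3]
      refine h1.trans ?_
      apply mul_le_mul_of_nonneg_right _ hBd0
      have h4 : ∏ q ∈ S, nuB Q q ≤ ∏ q ∈ S, q := by
        apply prod_le_prod' fun q hq => ?_
        have h5 := hQ.few q (hSp q hq)
        have h6 := (hPm q (hS hq)).2.1
        omega
      exact_mod_cast h4.trans hSD)
  rw [one_mul, ← hB, ← hD] at key
  refine le_trans (le_of_eq ?_) (key.trans ?_)
  · congr!
  have hT1 : (1 / 2 : ℝ) ^ B * ∏ q ∈ P, (1 - (nuB Q q : ℝ) / q) ≤ 1 / 2 * ∏ q ∈ P, (1 - (nuB Q q : ℝ) / q) := by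
    apply mul_le_mul_of_nonneg_right _ hprod0
    calc (1 / 2 : ℝ) ^ B ≤ (1 / 2 : ℝ) ^ 1 := pow_le_pow_of_le_one (by norm_num) (by norm_num) (by omega)
      _ = 1 / 2 := pow_one _
  refine add_le_add hT1 ?_
  rw [sum_const, nsmul_eq_mul]
  have hcard : ((P.powerset.filter (fun S : Finset ℕ => ∏ q ∈ S, q ≤ D)).card : ℝ) ≤ (2 : ℝ) ^ m := by
    have h1 := card_small_prod P (fun q hq => (hPm q hq).1) D
    exact_mod_cast h1.trans hDm
  have hDr : (D : ℝ) ≤ (2 : ℝ) ^ m := by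
    have : D ≤ 2 ^ m := by omega
    exact_mod_cast this
  have hJs : (J : ℝ) + 2 ≤ s ^ 2 := by
    have h1 : (J : ℝ) ≤ 2 ^ J := by exact_mod_cast Nat.lt_two_pow_self.le
    have h2 : ε / (2 * M) * s ≤ s := by
      have h3 : ε / (2 * M) ≤ 1 := by
        rw [div_le_one (by positivity)]
        linarith
      nlinarith
    nlinarith
  have h2m : (2 : ℝ) ^ m * 2 ^ m ≤ Real.exp (2 * s) := by
    have h1 : (2 : ℝ) ≤ Real.exp 1 := by
      have := Real.add_one_le_exp (1 : ℝ)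
      linarith
    have h2 : (2 : ℝ) ^ m * 2 ^ m = 2 ^ (2 * m) := by rw [two_mul, pow_add]
    rw [h2]
    calc (2 : ℝ) ^ (2 * m) ≤ (Real.exp 1) ^ (2 * m) := pow_le_pow_left₀ (by norm_num) h1 _
      _ = Real.exp ((2 * m : ℕ) : ℝ) := by rw [← Real.exp_nat_mul, mul_one]
      _ ≤ Real.exp (2 * s) := by
          apply Real.exp_le_exp.2
          push_cast
          nlinarith
  have hBd' : Bd ≤ s ^ (2 * T) * (K * Real.exp (-(4 * s))) := by
    have h1 : μ ^ (k / m - L) = Real.exp (-(lam * ((k / m - L : ℕ) : ℝ))) := by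
      rw [hlam, show -(-Real.log μ * ((k / m - L : ℕ) : ℝ)) = ((k / m - L : ℕ) : ℝ) * Real.log μ by ring, ← Real.log_pow,
        Real.exp_log (by positivity)]
    have h2 : (k : ℝ) ^ T = s ^ (2 * T) := by rw [← hss, pow_mul, sq]
    rw [hBd, h1, h2]
    apply mul_le_mul_of_nonneg_left _ (by positivity)
    have h3 : -(lam * ((k / m - L : ℕ) : ℝ)) ≤ lam * (1 + L) + -(4 * s) := by
      rw [Nat.cast_sub hLk]
      have h4 : lam * (s / ε - 1) ≤ lam * ((k / m : ℕ) : ℝ) := mul_le_mul_of_nonneg_left hkm hlam0.le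
      have h5 : 4 * s ≤ lam * (s / ε) := by
        rw [← mul_div_assoc, le_div_iff₀ hε0]
        nlinarith
      nlinarith
    calc Real.exp (-(lam * ((k / m - L : ℕ) : ℝ))) ≤ Real.exp (lam * (1 + L) + -(4 * s)) := Real.exp_le_exp.2 h3
      _ = Real.exp (lam * (1 + L)) * Real.exp (-(4 * s)) := Real.exp_add _ _
      _ ≤ K * Real.exp (-(4 * s)) := mul_le_mul_of_nonneg_right hK1 (Real.exp_pos _).le
  have h2m0 : (0 : ℝ) < 2 ^ m := by positivity
  calc ((J : ℝ) + 2) * (((P.powerset.filter (fun S : Finset ℕ => ∏ q ∈ S, q ≤ D)).card : ℝ) * ((D : ℝ) * Bd))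
      ≤ s ^ 2 * (2 ^ m * (2 ^ m * Bd)) := by
        apply mul_le_mul hJs _ (by positivity) (by positivity)
        apply mul_le_mul hcard _ (by positivity) h2m0.le
        exact mul_le_mul_of_nonneg_right hDr hBd0
    _ = s ^ 2 * ((2 ^ m * 2 ^ m) * Bd) := by ring
    _ ≤ s ^ 2 * (Real.exp (2 * s) * (s ^ (2 * T) * (K * Real.exp (-(4 * s))))) := by
        apply mul_le_mul_of_nonneg_left _ (by positivity)
        exact mul_le_mul h2m hBd' hBd0 (Real.exp_pos _).le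
    _ = (K * s ^ (2 * T + 2)) * Real.exp (-(2 * s)) := by
        have e : Real.exp (-(2 * s)) = Real.exp (2 * s) * Real.exp (-(4 * s)) := by
          rw [← Real.exp_add]
          congr 1
          ring
        rw [e, pow_add]
        ring
    _ ≤ 1 / (k : ℝ) ^ U := by
        have e1 : (k : ℝ) ^ U = s ^ (2 * U) := by rw [← hss, pow_mul, sq]
        rw [e1, Real.exp_neg, ← div_eq_mul_inv, div_le_div_iff₀ (Real.exp_pos _) (by positivity), one_mul]
        calc K * s ^ (2 * T + 2) * s ^ (2 * U) = K * s ^ (2 * (T + U) + 2) := by ring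
          _ ≤ Real.exp s := hev1
          _ ≤ Real.exp (2 * s) := Real.exp_le_exp.2 (by linarith)

end Pool.Agent.Run7.h672.WT
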