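import Pool.Agent.Run7.h672.WT.U
import Pool.Agent.H316R2.Pb1

set_option autoImplicit false

/-! Upper bounds for the probability that several linear forms are prime, for laws with small exponential sums. -/

namespace Pool.Agent.Run7.h672.WT
open Finset
open Pool.Agent.Run7.h672.XC
open Pool.Agent.H373R2.T7 (nuB PerB nuB_le)

/-- the product over the primes in `(z, y]` -/
lemma prod_dim (z : ℕ) : ∃ C : ℝ, 0 < C ∧ ∀ y : ℕ, 2 ≤ y →
    ∏ q ∈ (Ioc z y).filter Nat.Prime, (1 - 1 / (q : ℝ)) ≤ C / Real.log y := by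
  obtain ⟨C, hC, h⟩ := Pool.Agent.H316R2.mert_up
  refine ⟨2 ^ (z + 1) * C, by positivity, fun y hy => ?_⟩
  have h1 := h y hy
  have h2 : (Ioc z y).filter Nat.Prime ⊆ (Icc 1 y).filter Nat.Prime := by
    intro q hq
    rw [mem_filter, mem_Ioc] at hq
    rw [mem_filter, mem_Icc]
    exact ⟨⟨hq.2.one_le, hq.1.2⟩, hq.2⟩
  rw [← prod_sdiff h2] at h1
  have hhalf : ∀ q ∈ (Icc 1 y).filter Nat.Prime, 1 / 2 ≤ 1 - 1 / (q : ℝ) := by
    intro q hq
    have hq2 : (2 : ℝ) ≤ q := by exact_mod_cast (mem_filter.1 hq).2.two_le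
    have : 1 / (q : ℝ) ≤ 1 / 2 := one_div_le_one_div_of_le (by norm_num) hq2
    linarith
  have h3 : (1 / 2 : ℝ) ^ (z + 1) ≤ ∏ q ∈ (Icc 1 y).filter Nat.Prime \ (Ioc z y).filter Nat.Prime, (1 - 1 / (q : ℝ)) := by
    calc (1 / 2 : ℝ) ^ (z + 1) ≤ (1 / 2 : ℝ) ^ ((Icc 1 y).filter Nat.Prime \ (Ioc z y).filter Nat.Prime).card := by
          apply pow_le_pow_of_le_one (by norm_num) (by norm_num)
          calc ((Icc 1 y).filter Nat.Prime \ (Ioc z y).filter Nat.Prime).card ≤ (range (z + 1)).card := by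
                apply card_le_card
                intro q hq
                rw [mem_sdiff, mem_filter, mem_filter, mem_Icc, mem_Ioc] at hq
                rw [mem_range]
                obtain ⟨⟨⟨_, g1⟩, g2⟩, g3⟩ := hq
                by_contra hcon
                exact g3 ⟨⟨by omega, g1⟩, g2⟩
            _ = z + 1 := card_range _
      _ = ∏ _q ∈ (Icc 1 y).filter Nat.Prime \ (Ioc z y).filter Nat.Prime, (1 / 2 : ℝ) := by rw [prod_const]
      _ ≤ _ := prod_le_prod (fun _ _ => by norm_num) (fun q hq => hhalf q (mem_sdiff.1 hq).1)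
  have h4 : 0 ≤ ∏ q ∈ (Ioc z y).filter Nat.Prime, (1 - 1 / (q : ℝ)) :=
    prod_nonneg fun q hq => le_trans (by norm_num) (hhalf q (h2 hq))
  have h5 : (1 / 2 : ℝ) ^ (z + 1) * ∏ q ∈ (Ioc z y).filter Nat.Prime, (1 - 1 / (q : ℝ)) ≤ C / Real.log y :=
    (mul_le_mul_of_nonneg_right h3 h4).trans h1
  have h6 : (2 : ℝ) ^ (z + 1) * (1 / 2) ^ (z + 1) = 1 := by rw [← mul_pow]; norm_num
  calc ∏ q ∈ (Ioc z y).filter Nat.Prime, (1 - 1 / (q : ℝ)) =
      (2 : ℝ) ^ (z + 1) * ((1 / 2) ^ (z + 1) * ∏ q ∈ (Ioc z y).filter Nat.Prime, (1 - 1 / (q : ℝ))) := by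
        rw [← mul_assoc, h6, one_mul]
    _ ≤ 2 ^ (z + 1) * (C / Real.log y) := mul_le_mul_of_nonneg_left h5 (by positivity)
    _ = _ := by ring

lemma one_sub_ge (x : ℝ) (h0 : 0 ≤ x) (h1 : x ≤ 1 / 2) : 1 ≤ (1 - x) * Real.exp (2 * x) := by
  have h2 : 1 + 2 * x ≤ Real.exp (2 * x) := by
    have := Real.add_one_le_exp (2 * x)
    linarith
  have h3 : 1 ≤ (1 - x) * (1 + 2 * x) := by nlinarith
  exact h3.trans (mul_le_mul_of_nonneg_left h2 (by linarith))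

open Classical in
/-- the dimension of the sieve -/
theorem law_dim {b L T : ℕ} {𝒞 : ℕ → (ℕ → ℝ) → Prop} (hcls : RCls b L T 𝒞) (c z₁ : ℕ) :
    ∃ z₀ : ℕ, z₁ ≤ z₀ ∧ ∃ C : ℝ, 0 < C ∧ ∃ k₀ : ℕ, ∀ k : ℕ, k₀ ≤ k → ∀ p, 𝒞 k p →
    ∀ Q : ℕ → ℕ → Prop, PerB Q c → ∀ Bad : Finset ℕ, (∀ q : ℕ, q.Prime → z₀ < q → q ∉ Bad → c ≤ nuB Q q) →
    ∀ E : Finset ℕ, (∀ v ∈ E, v < b ^ k ∧ ∀ q : ℕ, q.Prime → z₀ < q → (q : ℝ) ≤ Real.exp (Real.sqrt k) → ¬ Q q v) →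
    ∑ v ∈ E, p v ≤ C * Real.exp (2 * c * ∑ q ∈ Bad, 1 / (q : ℝ)) / Real.sqrt k ^ c := by
  obtain ⟨z2, δ, hδ, k1, h⟩ := law_fund hcls c c
  obtain ⟨z₀, hz⟩ : ∃ z₀, z₀ = max (max z2 z₁) (max c 1) := ⟨_, rfl⟩
  have hz2 : z2 ≤ z₀ := by omega
  have hz1 : z₁ ≤ z₀ := by omega
  have hzc : c ≤ z₀ := by omega
  obtain ⟨C, hC, hM⟩ := prod_dim z₀
  obtain ⟨η, hη⟩ : ∃ η, η = min δ 1 := ⟨_, rfl⟩
  have hη0 : 0 < η := by rw [hη]; exact lt_min hδ one_pos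
  have hηδ : η ≤ δ := by rw [hη]; exact min_le_left _ _
  have hη1 : η ≤ 1 := by rw [hη]; exact min_le_right _ _
  obtain ⟨N2, hN2⟩ := exists_nat_ge (1 / η)
  refine ⟨z₀, hz1, 3 / 2 * (4 * C / η) ^ c + 1, by positivity, max k1 (max 1 (N2 ^ 2)), fun k hk p hp Q hQ Bad hBad E hE => ?_⟩
  have b1 : k1 ≤ k := (le_max_left _ _).trans hk
  have b2 : 1 ≤ k := ((le_max_left _ _).trans (le_max_right _ _)).trans hk
  have b3 : N2 ^ 2 ≤ k := ((le_max_right _ _).trans (le_max_right _ _)).trans hk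
  obtain ⟨s, hs⟩ : ∃ s, s = Real.sqrt k := ⟨_, rfl⟩
  have hk0 : (0 : ℝ) < k := by exact_mod_cast b2
  have hk1 : (1 : ℝ) ≤ k := by exact_mod_cast b2
  have hss : s * s = k := by rw [hs]; exact Real.mul_self_sqrt hk0.le
  have hs0 : 0 < s := by rw [hs]; exact Real.sqrt_pos.2 hk0
  have hs1 : 1 ≤ s := by rw [hs]; exact Real.one_le_sqrt.2 hk1
  have hsN : 1 / η ≤ s := by
    refine hN2.trans ?_
    rw [hs]
    apply Real.le_sqrt_of_sq_le
    exact_mod_cast b3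
  have hηs : 1 ≤ η * s := by
    rw [div_le_iff₀ hη0] at hsN
    linarith
  obtain ⟨n, hn⟩ : ∃ n, n = ⌊η * s⌋₊ := ⟨_, rfl⟩
  have hn1 : 1 ≤ n := by rw [hn]; exact Nat.le_floor (by exact_mod_cast hηs)
  have hn2 : (n : ℝ) ≤ η * s := by rw [hn]; exact Nat.floor_le (by positivity)
  have hn3 : η * s < n + 1 := by rw [hn]; exact Nat.lt_floor_add_one _
  obtain ⟨J, hJ⟩ : ∃ J, J = Nat.log 2 n := ⟨_, rfl⟩
  have hJ1 : 2 ^ J ≤ n := by rw [hJ]; exact Nat.pow_log_le_self 2 (by omega)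
  have hJ2 : n < 2 ^ (J + 1) := by rw [hJ]; exact Nat.lt_pow_succ_log_self (by omega) n
  have hJ1r : (2 : ℝ) ^ J ≤ n := by exact_mod_cast hJ1
  have hJ2r : (n : ℝ) + 1 ≤ 2 * 2 ^ J := by
    have : n + 1 ≤ 2 * 2 ^ J := by rw [pow_succ] at hJ2; omega
    exact_mod_cast this
  have h1 := h k b1 p hp J (by
    rw [← hs]
    calc (2 : ℝ) ^ J ≤ η * s := hJ1r.trans hn2
      _ ≤ δ * s := mul_le_mul_of_nonneg_right hηδ hs0.le) z₀ hz2 Q hQ
  obtain ⟨y, hy⟩ : ∃ y, y = 2 ^ 2 ^ J := ⟨_, rfl⟩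
  rw [← hy] at h1
  have hy2 : 2 ≤ y := by
    rw [hy]
    calc 2 = 2 ^ 1 := by norm_num
      _ ≤ 2 ^ 2 ^ J := Nat.pow_le_pow_right (by norm_num) Nat.one_le_two_pow
  have hly : Real.log y = 2 ^ J * Real.log 2 := by
    rw [hy]
    push_cast
    rw [Real.log_pow]
    push_cast
    ring
  have hl2 := Real.log_two_gt_d9
  have hl2' := Real.log_two_lt_d9
  have hJ0 : (0 : ℝ) < 2 ^ J := by positivity
  have hly1 : η * s / 4 ≤ Real.log y := by
    rw [hly]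
    nlinarith
  have hly0 : 0 < Real.log y := by
    rw [hly]
    positivity
  have hyexp : (y : ℝ) ≤ Real.exp s := by
    have hy0 : (0 : ℝ) < y := by exact_mod_cast (by omega : 0 < y)
    rw [← Real.log_le_iff_le_exp hy0, hly]
    have g1 : (2 : ℝ) ^ J ≤ s := by
      calc (2 : ℝ) ^ J ≤ η * s := hJ1r.trans hn2
        _ ≤ 1 * s := mul_le_mul_of_nonneg_right hη1 hs0.le
        _ = s := one_mul s
    nlinarith
  have hP : ∀ q ∈ (Ioc z₀ y).filter Nat.Prime, q.Prime ∧ z₀ < q ∧ q ≤ y := by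
    intro q hq
    rw [mem_filter, mem_Ioc] at hq
    exact ⟨hq.2, hq.1.1, hq.1.2⟩
  -- the product
  have hprod : ∏ q ∈ (Ioc z₀ y).filter Nat.Prime, (1 - (nuB Q q : ℝ) / q) ≤
      (4 * C / η / s) ^ c * Real.exp (2 * c * ∑ q ∈ Bad, 1 / (q : ℝ)) := by
    have g1 : ∀ q ∈ (Ioc z₀ y).filter Nat.Prime, 1 - (nuB Q q : ℝ) / q ≤
        (1 - 1 / (q : ℝ)) ^ c * Real.exp (2 * c * (if q ∈ Bad then 1 / (q : ℝ) else 0)) := by
      intro q hq
      obtain ⟨hqp, hqz, hqy⟩ := hP q hq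
      have hq2 : (2 : ℝ) ≤ q := by exact_mod_cast hqp.two_le
      have hq0 : (0 : ℝ) < q := by linarith
      have hq1 : 1 / (q : ℝ) ≤ 1 / 2 := one_div_le_one_div_of_le (by norm_num) hq2
      have hq3 : 0 ≤ 1 / (q : ℝ) := by positivity
      by_cases hb : q ∈ Bad
      · rw [if_pos hb]
        have g2 := one_sub_ge (1 / (q : ℝ)) hq3 hq1
        have g3 : 1 ≤ ((1 - 1 / (q : ℝ)) * Real.exp (2 * (1 / (q : ℝ)))) ^ c := one_le_pow₀ g2
        rw [mul_pow, ← Real.exp_nat_mul] at g3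
        have g4 : (c : ℝ) * (2 * (1 / (q : ℝ))) = 2 * c * (1 / (q : ℝ)) := by ring
        rw [g4] at g3
        have g5 : 0 ≤ (nuB Q q : ℝ) / q := by positivity
        linarith
      · rw [if_neg hb, mul_zero, Real.exp_zero, mul_one]
        have g2 : (c : ℝ) / q ≤ (nuB Q q : ℝ) / q := by
          apply div_le_div_of_nonneg_right _ hq0.le
          exact_mod_cast hBad q hqp hqz hb
        have g3 := one_add_mul_le_pow (show (-2 : ℝ) ≤ -(1 / (q : ℝ)) by linarith) c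
        calc 1 - (nuB Q q : ℝ) / q ≤ 1 - (c : ℝ) / q := by linarith
          _ = 1 + c * (-(1 / (q : ℝ))) := by ring
          _ ≤ (1 + -(1 / (q : ℝ))) ^ c := g3
          _ = _ := by rw [← sub_eq_add_neg]
    have g0 : ∀ q ∈ (Ioc z₀ y).filter Nat.Prime, 0 ≤ 1 - (nuB Q q : ℝ) / q := by
      intro q hq
      have hq0 : (0 : ℝ) < q := by exact_mod_cast (hP q hq).1.pos
      rw [sub_nonneg, div_le_one hq0]
      exact_mod_cast nuB_le Q q
    refine (prod_le_prod g0 g1).trans ?_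
    rw [prod_mul_distrib, prod_pow, ← Real.exp_sum, ← mul_sum]
    have g6 : 0 ≤ ∏ q ∈ (Ioc z₀ y).filter Nat.Prime, (1 - 1 / (q : ℝ)) := by
      apply prod_nonneg
      intro q hq
      have hq2 : (2 : ℝ) ≤ q := by exact_mod_cast (hP q hq).1.two_le
      have hq1 : 1 / (q : ℝ) ≤ 1 / 2 := one_div_le_one_div_of_le (by norm_num) hq2
      linarith
    apply mul_le_mul _ _ (Real.exp_pos _).le (by positivity)
    · apply pow_le_pow_left₀ g6
      refine (hM y hy2).trans ?_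
      calc C / Real.log y ≤ C / (η * s / 4) := div_le_div_of_nonneg_left hC.le (by positivity) hly1
        _ = 4 * C / η / s := by field_simp
    · apply Real.exp_le_exp.2
      apply mul_le_mul_of_nonneg_left _ (by positivity)
      rw [← sum_filter]
      apply sum_le_sum_of_subset_of_nonneg
      · intro q hq
        exact (mem_filter.1 hq).2
      · intro q _ _
        positivity
  have hsum : ∑ v ∈ E, p v ≤ ∑ v ∈ (range (b ^ k)).filter (fun v => ∀ q ∈ (Ioc z₀ y).filter Nat.Prime, ¬ Q q v), p v := by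
    apply sum_le_sum_of_subset_of_nonneg
    · intro v hv
      obtain ⟨g1, g2⟩ := hE v hv
      rw [mem_filter, mem_range]
      refine ⟨g1, fun q hq => ?_⟩
      obtain ⟨hqp, hqz, hqy⟩ := hP q hq
      refine g2 q hqp hqz ?_
      rw [← hs]
      exact le_trans (by exact_mod_cast hqy) hyexp
    · intro v _ _
      exact hcls.nonneg _ _ hp v
  have h2 : ∑ v ∈ (range (b ^ k)).filter (fun v => ∀ q ∈ (Ioc z₀ y).filter Nat.Prime, ¬ Q q v), p v ≤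
      1 / 2 * ∏ q ∈ (Ioc z₀ y).filter Nat.Prime, (1 - (nuB Q q : ℝ) / q) + 1 / (k : ℝ) ^ c +
        ∏ q ∈ (Ioc z₀ y).filter Nat.Prime, (1 - (nuB Q q : ℝ) / q) := by
    refine le_trans (le_of_eq ?_) (sub_le_iff_le_add.1 (abs_le.1 h1).2)
    congr!
  have hexp1 : 1 ≤ Real.exp (2 * c * ∑ q ∈ Bad, 1 / (q : ℝ)) := by
    apply Real.one_le_exp
    have : 0 ≤ ∑ q ∈ Bad, 1 / (q : ℝ) := sum_nonneg fun q _ => by positivity
    positivity
  obtain ⟨X, hX⟩ : ∃ X, X = Real.exp (2 * c * ∑ q ∈ Bad, 1 / (q : ℝ)) := ⟨_, rfl⟩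
  rw [← hX] at hprod hexp1 ⊢
  rw [← hs]
  have h3 : 1 / (k : ℝ) ^ c ≤ X / s ^ c := by
    apply div_le_div₀ (by linarith) hexp1 (by positivity)
    rw [← hss]
    apply pow_le_pow_left₀ hs0.le
    nlinarith
  calc ∑ v ∈ E, p v ≤ 3 / 2 * ((4 * C / η / s) ^ c * X) + 1 / (k : ℝ) ^ c := by linarith
    _ ≤ 3 / 2 * ((4 * C / η / s) ^ c * X) + X / s ^ c := by linarith
    _ = (3 / 2 * (4 * C / η) ^ c + 1) * X / s ^ c := by
        rw [div_pow (4 * C / η)]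
        ring

/-- one of the linear forms `κ v + j` is divisible by `q > z` -/
def Lf (κ z : ℕ) (A : Finset ℤ) (q v : ℕ) : Prop := z < q ∧ ∃ j ∈ A, (q : ℤ) ∣ (κ : ℤ) * v + j

lemma nd_of (κ z q : ℕ) (hκ : 1 ≤ κ) (hκz : κ ≤ z) (hq : z < q) : ¬ (q ∣ κ) := by
  intro h
  have := Nat.le_of_dvd (by omega) h
  omega

lemma Lf_few (κ z : ℕ) (hκ : 1 ≤ κ) (hκz : κ ≤ z) (A : Finset ℤ) (q : ℕ) (hq : q.Prime) : nuB (Lf κ z A) q ≤ A.card := by
  classical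
  unfold nuB
  by_cases hz : z < q
  · have hch : ∀ r ∈ (range q).filter (fun r => Lf κ z A q r), ∃ j ∈ A, (q : ℤ) ∣ (κ : ℤ) * r + j := by
      intro r hr
      exact (mem_filter.1 hr).2.2
    choose! F hF1 hF2 using hch
    apply card_le_card_of_injOn F (fun r hr => hF1 r hr)
    intro r hr r' hr' h
    have e1 := hF2 r hr
    have e2 := hF2 r' hr'
    rw [← h] at e2
    have e3 : (q : ℤ) ∣ (κ : ℤ) * ((r : ℤ) - r') := by
      have := dvd_sub e1 e2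
      have e : (κ : ℤ) * r + F r - ((κ : ℤ) * r' + F r) = (κ : ℤ) * ((r : ℤ) - r') := by ring
      rwa [e] at this
    have hqi := Nat.prime_iff_prime_int.1 hq
    rcases hqi.dvd_or_dvd e3 with g | g
    · exact absurd (by exact_mod_cast g) (nd_of κ z q hκ hκz hz)
    · have hr1 := mem_range.1 (mem_filter.1 hr).1
      have hr2 := mem_range.1 (mem_filter.1 hr').1
      have g2 := Int.eq_zero_of_abs_lt_dvd g (by rw [abs_lt]; constructor <;> omega)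
      omega
  · have : (range q).filter (fun r => Lf κ z A q r) = ∅ := by
      rw [filter_eq_empty_iff]
      intro r _ h
      exact hz h.1
    rw [this]
    simp

lemma Lf_per (κ z : ℕ) (hκ : 1 ≤ κ) (hκz : κ ≤ z) (A : Finset ℤ) : PerB (Lf κ z A) A.card := by
  refine ⟨fun q n => ?_, fun q hq => Lf_few κ z hκ hκz A q hq⟩
  unfold Lf
  apply and_congr_right
  intro _
  apply exists_congr
  intro j
  apply and_congr_right
  intro _
  have e : (κ : ℤ) * n + j = ((κ : ℤ) * ((n % q : ℕ) : ℤ) + j) + (q : ℤ) * (κ * ((n / q : ℕ) : ℤ)) := by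
    have h1 : ((n : ℕ) : ℤ) = (q : ℤ) * ((n / q : ℕ) : ℤ) + ((n % q : ℕ) : ℤ) := by exact_mod_cast (Nat.div_add_mod n q).symm
    calc (κ : ℤ) * n + j = (κ : ℤ) * ((q : ℤ) * ((n / q : ℕ) : ℤ) + ((n % q : ℕ) : ℤ)) + j := by rw [← h1]
      _ = _ := by ring
  rw [e]
  exact (dvd_add_left (dvd_mul_right _ _))

lemma Lf_many (κ z : ℕ) (hκ : 1 ≤ κ) (hκz : κ ≤ z) (A : Finset ℤ) (q : ℕ) (hq : q.Prime) (hz : z < q)
    (hA : ∀ j ∈ A, ∀ j' ∈ A, (q : ℤ) ∣ j - j' → j = j') : A.card ≤ nuB (Lf κ z A) q := by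
  classical
  have : Fact q.Prime := ⟨hq⟩
  have hκ0 : (κ : ZMod q) ≠ 0 := by
    intro h
    rw [ZMod.natCast_eq_zero_iff] at h
    exact nd_of κ z q hκ hκz hz h
  have hex : ∀ j ∈ A, ∃ r, r < q ∧ (q : ℤ) ∣ (κ : ℤ) * ((r : ℕ) : ℤ) + j := by
    intro j _
    refine ⟨((-(j : ZMod q)) * (κ : ZMod q)⁻¹).val, ZMod.val_lt _, ?_⟩
    rw [← ZMod.intCast_zmod_eq_zero_iff_dvd]
    push_cast
    rw [ZMod.natCast_val, ZMod.cast_id]
    field_simp
    ring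
  choose! F hF1 hF2 using hex
  unfold nuB
  apply card_le_card_of_injOn F
  · intro j hj
    rw [mem_coe, mem_filter, mem_range]
    exact ⟨hF1 j hj, hz, j, hj, hF2 j hj⟩
  · intro j hj j' hj' h
    apply hA j hj j' hj'
    have e1 := hF2 j hj
    have e2 := hF2 j' hj'
    rw [← h] at e2
    have := dvd_sub e1 e2
    have e : (κ : ℤ) * ((F j : ℕ) : ℤ) + j - ((κ : ℤ) * ((F j : ℕ) : ℤ) + j') = j - j' := by ring
    rwa [e] at this

open Classical in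
/-- **the probability that several linear forms are prime** -/
theorem law_forms {b L T : ℕ} {𝒞 : ℕ → (ℕ → ℝ) → Prop} (hcls : RCls b L T 𝒞) (c z₁ κ : ℕ) (hκ : 1 ≤ κ) :
    ∃ C : ℝ, 0 < C ∧ ∃ k₀ : ℕ, ∀ k : ℕ, k₀ ≤ k → ∀ p, 𝒞 k p →
    ∀ A : Finset ℤ, A.card = c → ∀ Bad : Finset ℕ,
    (∀ q : ℕ, q.Prime → z₁ < q → q ∉ Bad → ∀ j ∈ A, ∀ j' ∈ A, (q : ℤ) ∣ j - j' → j = j') →
    ∀ E : Finset ℕ, (∀ v ∈ E, v < b ^ k ∧ ∀ j ∈ A, ((κ : ℤ) * v + j).toNat.Prime ∧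
      Real.exp (Real.sqrt k) < (((κ : ℤ) * v + j : ℤ) : ℝ)) →
    ∑ v ∈ E, p v ≤ C * Real.exp (2 * c * ∑ q ∈ Bad, 1 / (q : ℝ)) / Real.sqrt k ^ c := by
  obtain ⟨z₀, hz, C, hC, k₀, h⟩ := law_dim hcls c (max z₁ κ)
  have hz1 : z₁ ≤ z₀ := (le_max_left _ _).trans hz
  have hzκ : κ ≤ z₀ := (le_max_right _ _).trans hz
  refine ⟨C, hC, k₀, fun k hk p hp A hA Bad hBad E hE => ?_⟩
  have hper := Lf_per κ z₀ hκ hzκ A
  rw [hA] at hper
  refine h k hk p hp (Lf κ z₀ A) hper Bad (fun q hq hqz hqB => ?_) E (fun v hv => ⟨(hE v hv).1, fun q hq hqz hqe => ?_⟩)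
  · rw [← hA]
    exact Lf_many κ z₀ hκ hzκ A q hq hqz (hBad q hq (by omega) hqB)
  · rintro ⟨_, j, hj, hdv⟩
    obtain ⟨g1, g2⟩ := (hE v hv).2 j hj
    have hpos : (0 : ℤ) < (κ : ℤ) * v + j := by
      have := lt_trans (Real.exp_pos _) g2
      exact_mod_cast this
    have e : (((κ : ℤ) * v + j).toNat : ℤ) = (κ : ℤ) * v + j := Int.toNat_of_nonneg hpos.le
    rw [← e] at hdv
    have h3 : q ∣ ((κ : ℤ) * v + j).toNat := by exact_mod_cast hdv
    have h4 := (Nat.prime_dvd_prime_iff_eq hq g1).1 h3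
    have h5 : (q : ℝ) = (((κ : ℤ) * v + j : ℤ) : ℝ) := by
      rw [h4, ← e]
      push_cast
      rfl
    linarith

end Pool.Agent.Run7.h672.WT
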