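import Pool.Agent.Run7.h672.WT.V
import Pool.Agent.Run7.h672.CC.F

set_option autoImplicit false

/-! The integers written by random words are rarely small. -/

namespace Pool.Agent.Run7.h672.WT
open Finset
open Pool.Agent.Run7.h672.CC

/-- the integer `c + κ v` is rarely between `1` and `2 exp (√k)` -/
theorem word_small {b : ℕ} {q : ℕ → ℕ → ℝ} (hW : Words b q) (κ : ℕ) (hκ : 1 ≤ κ) (U : ℕ) :
    ∃ k₀ : ℕ, ∀ k : ℕ, k₀ ≤ k → ∀ p, WordLaw b q k p → ∀ c : ℕ, ∀ E : Finset ℕ,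
    (∀ v ∈ E, v < b ^ k ∧ 1 ≤ c + κ * v ∧ ((c + κ * v : ℕ) : ℝ) ≤ 2 * Real.exp (Real.sqrt k)) →
    ∑ v ∈ E, p v ≤ 1 / (k : ℝ) ^ (U + 1) := by
  classical
  have hb := hW.two
  have hcls := word_clsV hW (κ : ℤ) (by exact_mod_cast (by omega : κ ≠ 0))
  obtain ⟨W, K₀, h⟩ := hcls.anti 0 U
  have hbr : (2 : ℝ) ≤ b := by exact_mod_cast hb
  have hlb : 0.69 < Real.log b := by
    have := Real.log_two_gt_d9
    have := Real.log_le_log (by norm_num) hbr
    linarith
  obtain ⟨k1, h1⟩ := ev_exp (2 * (W + 1)) (2 * Real.log b ^ (W + 1) + 4) (by positivity)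
  refine ⟨max (max K₀ k1) 1, fun k hk p hp c E hE => ?_⟩
  have b1 : K₀ ≤ k := by omega
  obtain ⟨g1, g2⟩ := h1 k (by omega)
  obtain ⟨s, hs⟩ : ∃ s, s = Real.sqrt k := ⟨_, rfl⟩
  have hk0 : (0 : ℝ) < k := by exact_mod_cast (by omega : 0 < k)
  have hss : s * s = k := by rw [hs]; exact Real.mul_self_sqrt hk0.le
  rw [← hs] at g1 g2 hE
  have hlw : 0 ≤ Real.log b ^ (W + 1) := by positivity
  have hs4 : 4 ≤ s := by linarith
  have hlogN : Real.log ((b ^ k : ℕ) : ℝ) = s ^ 2 * Real.log b := by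
    push_cast
    rw [Real.log_pow, ← hss, sq]
  have hN : ((b ^ k : ℕ) : ℝ) = Real.exp (s ^ 2 * Real.log b) := by
    rw [← hlogN, Real.exp_log]
    exact_mod_cast (by positivity : 0 < b ^ k)
  have hlt : 2 * Real.exp s < ((b ^ k : ℕ) : ℝ) / Real.log ((b ^ k : ℕ) : ℝ) ^ (W + 1) := by
    rw [hlogN, hN, lt_div_iff₀ (by positivity)]
    have e1 : (s ^ 2 * Real.log b) ^ (W + 1) = Real.log b ^ (W + 1) * s ^ (2 * (W + 1)) := by
      rw [mul_pow, ← pow_mul]
      ring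
    rw [e1]
    have e2 : 2 * (Real.log b ^ (W + 1) * s ^ (2 * (W + 1))) ≤ Real.exp s := by
      refine le_trans ?_ g1
      have : 0 ≤ s ^ (2 * (W + 1)) := by positivity
      nlinarith
    calc 2 * Real.exp s * (Real.log b ^ (W + 1) * s ^ (2 * (W + 1))) =
        Real.exp s * (2 * (Real.log b ^ (W + 1) * s ^ (2 * (W + 1)))) := by ring
      _ ≤ Real.exp s * Real.exp s := mul_le_mul_of_nonneg_left e2 (Real.exp_pos _).le
      _ = Real.exp (s + s) := (Real.exp_add _ _).symm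
      _ < Real.exp (s ^ 2 * Real.log b) := by
          apply Real.exp_lt_exp.2
          have : s ^ 2 * 0.69 ≤ s ^ 2 * Real.log b := mul_le_mul_of_nonneg_left hlb.le (by positivity)
          nlinarith
  have h2 := h k b1 k rfl p hp (c : ℤ) (fun v => v ∈ E) (fun v _ hvE => by
    obtain ⟨_, e1, e2⟩ := hE v hvE
    refine ⟨by exact_mod_cast e1, lt_of_le_of_lt ?_ hlt⟩
    push_cast at e2 ⊢
    exact e2)
  refine le_trans ?_ h2
  rw [← sum_filter]
  apply sum_le_sum_of_subset_of_nonneg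
  · intro v hv
    rw [mem_filter, mem_range]
    exact ⟨(hE v hv).1, hv⟩
  · intro v _ _
    exact law_nonneg hW hp v

end Pool.Agent.Run7.h672.WT
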