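import Pool.Agent.Run7.h672.WT.X
import Pool.Agent.Run7.h338.CW.Main

set_option autoImplicit false

/-! The values `c + κ v` modulo four primes near `x`, for laws with small exponential sums, `k ≥ C log ^ 2 x`. -/

namespace Pool.Agent.Run7.h672.WT
open Finset
open Pool.Agent.N625.PT (equi cls_card)
open Pool.Agent.Run7.h672.XC
open Pool.Agent.H373R2.T7 (nuB PerB nuB_le)
open Pool.Agent.Run7.h844.RP (rq)

lemma rq_one (ρ : ℕ → ℤ) (R : ℕ → ℤ → Prop) (hR : ∀ q n, R q n ↔ n ≡ ρ q [ZMOD (q : ℤ)]) (q : ℕ) (hq : q.Prime) : rq R q = 1 := by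
  classical
  have hq0 : (0 : ℤ) < q := by exact_mod_cast hq.pos
  unfold rq
  rw [card_eq_one]
  refine ⟨(ρ q % q).toNat, ?_⟩
  have h1 := Int.emod_nonneg (ρ q) hq0.ne'
  have h2 := Int.emod_lt_of_pos (ρ q) hq0
  ext n
  rw [mem_filter, mem_range, mem_singleton, hR]
  constructor
  · rintro ⟨h3, h4⟩
    have h5 : (n : ℤ) % q = ρ q % q := h4
    rw [Int.emod_eq_of_lt (by positivity) (by exact_mod_cast h3)] at h5
    omega
  · intro h3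
    refine ⟨by omega, ?_⟩
    have h4 : (n : ℤ) = ρ q % q := by rw [h3]; exact Int.toNat_of_nonneg h1
    rw [h4]
    exact Int.mod_modEq _ _

set_option maxHeartbeats 1000000 in
open Classical in
theorem law_res {b L T : ℕ} {𝒞 : ℕ → (ℕ → ℝ) → Prop} (hcls : RCls b L T 𝒞) (κ : ℕ) (hκ : 1 ≤ κ) :
    ∃ C₀ x₀ : ℝ, 0 < C₀ ∧ ∀ x : ℝ, x₀ ≤ x → ∀ k : ℕ, C₀ * Real.log x ^ 2 ≤ k → ∀ p, 𝒞 k p →
    ∀ S : Finset ℕ, (∀ q ∈ S, q.Prime ∧ x ≤ q ∧ (q : ℝ) < 2 * x) → S.card ≤ 4 → ∀ (c : ℤ) (ρ : ℕ → ℤ),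
    |∑ v ∈ range (b ^ k), (if ∀ q ∈ S, c + (κ : ℤ) * v ≡ ρ q [ZMOD (q : ℤ)] then p v else 0) - 1 / ∏ q ∈ S, (q : ℝ)| ≤ 1 / x ^ 8 := by
  have hb := hcls.two
  have hL := hcls.one
  obtain ⟨μ, hμ0, hμ1, hchar⟩ := hcls.char
  obtain ⟨lam, hlam⟩ : ∃ lam, lam = -Real.log μ := ⟨_, rfl⟩
  have hlam0 : 0 < lam := by rw [hlam]; have := Real.log_neg hμ0 hμ1; linarith
  obtain ⟨K, hK⟩ : ∃ K : ℝ, K = Real.exp (lam * (1 + L)) := ⟨_, rfl⟩
  have hK0 : 0 < K := by rw [hK]; exact Real.exp_pos _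
  obtain ⟨k1, hk1⟩ := ev_exp (2 * T) K hK0
  obtain ⟨C₀, hC₀⟩ : ∃ C₀ : ℝ, C₀ = (20 / lam) ^ 2 + 160 / lam + 10 * (L + 1) := ⟨_, rfl⟩
  have hq1 : 0 ≤ (20 / lam) ^ 2 := by positivity
  have hq2 : 0 ≤ 160 / lam := by positivity
  have hL1 : (1 : ℝ) ≤ L := by exact_mod_cast hL
  refine ⟨C₀, Real.exp (k1 + 3) + (b : ℝ) ^ L + κ + 1, by rw [hC₀]; positivity, fun x hx k hk p hp S hS hS4 c ρ => ?_⟩
  have hexp0 := Real.exp_pos ((k1 : ℝ) + 3)
  have hbL0 : (0 : ℝ) < (b : ℝ) ^ L := by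
    have : (0 : ℝ) < b := by exact_mod_cast (by omega : 0 < b)
    positivity
  have hκ0 : (0 : ℝ) ≤ κ := Nat.cast_nonneg κ
  have hx0 : 0 < x := by linarith
  obtain ⟨ℓ, hℓ⟩ : ∃ ℓ, ℓ = Real.log x := ⟨_, rfl⟩
  rw [← hℓ] at hk
  have hℓ3 : (k1 : ℝ) + 3 ≤ ℓ := by
    rw [hℓ, Real.le_log_iff_exp_le hx0]
    linarith
  have hk10 : (0 : ℝ) ≤ k1 := Nat.cast_nonneg _
  have hℓ1 : 3 ≤ ℓ := by linarith
  have hℓ0 : 0 < ℓ := by linarith
  have hkC : ((20 / lam) ^ 2 + 160 / lam + 10 * (L + 1)) * ℓ ^ 2 ≤ k := by rw [← hC₀]; exact hk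
  have hℓ2 : 0 < ℓ ^ 2 := by positivity
  have hc1 : (20 / lam) ^ 2 * ℓ ^ 2 ≤ k := by nlinarith
  have hc2 : 160 / lam * ℓ ^ 2 ≤ k := by nlinarith
  have hc3 : 10 * ((L : ℝ) + 1) * ℓ ^ 2 ≤ k := by nlinarith
  have hkk1 : k1 ≤ k := by
    have : (k1 : ℝ) ≤ k := by
      have h1 : (k1 : ℝ) ≤ 10 * ((L : ℝ) + 1) * ℓ ^ 2 := by nlinarith
      linarith
    exact_mod_cast this
  obtain ⟨hev, _⟩ := hk1 k hkk1
  obtain ⟨s, hs⟩ : ∃ s, s = Real.sqrt k := ⟨_, rfl⟩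
  rw [← hs] at hev
  have hk0 : (0 : ℝ) < k := lt_of_lt_of_le (by positivity) hc3
  have hss : s * s = k := by rw [hs]; exact Real.mul_self_sqrt hk0.le
  have hs0 : 0 < s := by rw [hs]; exact Real.sqrt_pos.2 hk0
  have hs20 : 20 * ℓ ≤ lam * s := by
    have h1 : 20 / lam * ℓ ≤ s := by
      rw [hs]
      apply Real.le_sqrt_of_sq_le
      rw [mul_pow]
      exact hc1
    have h2 := mul_le_mul_of_nonneg_left h1 hlam0.le
    have h3 : lam * (20 / lam * ℓ) = 20 * ℓ := by field_simp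
    linarith
  have hlk : 160 * ℓ ^ 2 ≤ lam * k := by
    have h2 := mul_le_mul_of_nonneg_left hc2 hlam0.le
    have h3 : lam * (160 / lam * ℓ ^ 2) = 160 * ℓ ^ 2 := by field_simp
    linarith
  -- the modulus
  obtain ⟨g, hg⟩ : ∃ g, g = Nat.log 2 ⌊2 * x⌋₊ := ⟨_, rfl⟩
  obtain ⟨m, hm⟩ : ∃ m, m = 4 * (g + 1) + 1 := ⟨_, rfl⟩
  have hm1 : 1 ≤ m := by omega
  have hm0 : (0 : ℝ) < m := by exact_mod_cast hm1
  have hfl : 1 ≤ ⌊2 * x⌋₊ := Nat.le_floor (by push_cast; linarith)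
  have hmr : (m : ℝ) ≤ 10 * ℓ := by
    have h1 : (2 : ℝ) ^ g ≤ 2 * x := by
      have h2 : 2 ^ g ≤ ⌊2 * x⌋₊ := by rw [hg]; exact Nat.pow_log_le_self 2 (by omega)
      calc (2 : ℝ) ^ g ≤ (⌊2 * x⌋₊ : ℝ) := by exact_mod_cast h2
        _ ≤ 2 * x := Nat.floor_le (by positivity)
    have h3 := Real.log_le_log (by positivity) h1
    rw [Real.log_pow, Real.log_mul (by norm_num) hx0.ne', ← hℓ] at h3
    have h4 := Real.log_two_gt_d9
    have h5 := Real.log_two_lt_d9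
    have h6 : (0 : ℝ) ≤ g := Nat.cast_nonneg _
    have h7 : (g : ℝ) * 0.6931471803 ≤ g * Real.log 2 := mul_le_mul_of_nonneg_left h4.le h6
    have h8 : (m : ℝ) = 4 * (g + 1) + 1 := by rw [hm]; push_cast; ring
    rw [h8]
    linarith
  have hkm : (k : ℝ) / (10 * ℓ) - 1 ≤ ((k / m : ℕ) : ℝ) := by
    have h1 : (k : ℝ) / m < ((k / m : ℕ) : ℝ) + 1 := by
      rw [div_lt_iff₀ hm0]
      have h2 : k < m * (k / m) + m := Nat.lt_mul_div_succ k hm1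
      have h3 : (k : ℝ) < m * ((k / m : ℕ) : ℝ) + m := by exact_mod_cast h2
      linarith
    have h2 : (k : ℝ) / (10 * ℓ) ≤ k / m := div_le_div_of_nonneg_left hk0.le hm0 hmr
    linarith
  have hLk : L ≤ k / m := by
    have h2 : (L : ℝ) + 1 ≤ k / (10 * ℓ) := by
      rw [le_div_iff₀ (by positivity)]
      have h10 : 0 ≤ ((L : ℝ) + 1) * ℓ * (ℓ - 1) := mul_nonneg (by positivity) (by linarith)
      have h9 : ((L : ℝ) + 1) * (10 * ℓ) ≤ 10 * ((L : ℝ) + 1) * ℓ ^ 2 := by linarith [h10]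
      linarith
    have h3 : (L : ℝ) ≤ ((k / m : ℕ) : ℝ) := by linarith
    exact_mod_cast h3
  obtain ⟨Bd, hBd⟩ : ∃ Bd : ℝ, Bd = (k : ℝ) ^ T * μ ^ (k / m - L) := ⟨_, rfl⟩
  have hBd0 : 0 ≤ Bd := by rw [hBd]; positivity
  have hBdx : Bd ≤ 1 / x ^ 8 := by
    have h1 : μ ^ (k / m - L) = Real.exp (-(lam * ((k / m - L : ℕ) : ℝ))) := by
      rw [hlam, show -(-Real.log μ * ((k / m - L : ℕ) : ℝ)) = ((k / m - L : ℕ) : ℝ) * Real.log μ by ring, ← Real.log_pow,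
        Real.exp_log (by positivity)]
    have h2 : (k : ℝ) ^ T = s ^ (2 * T) := by rw [← hss, pow_mul, sq]
    have h3 : -(lam * ((k / m - L : ℕ) : ℝ)) ≤ lam * (1 + L) + -(s + 8 * ℓ) := by
      rw [Nat.cast_sub hLk]
      have h4 : lam * (k / (10 * ℓ) - 1) ≤ lam * ((k / m : ℕ) : ℝ) := mul_le_mul_of_nonneg_left hkm hlam0.le
      have h5 : s + 8 * ℓ ≤ lam * (k / (10 * ℓ)) := by
        rw [← mul_div_assoc, le_div_iff₀ (by positivity)]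
        have h6 : 20 * ℓ * s ≤ lam * k := by
          rw [← hss]
          nlinarith
        nlinarith
      nlinarith
    have h7 : x ^ 8 = Real.exp (8 * ℓ) := by
      rw [hℓ, show (8 : ℝ) * Real.log x = ((8 : ℕ) : ℝ) * Real.log x by norm_num, ← Real.log_pow, Real.exp_log (by positivity)]
    rw [hBd, h1, h2, h7, one_div, ← Real.exp_neg]
    calc s ^ (2 * T) * Real.exp (-(lam * ((k / m - L : ℕ) : ℝ))) ≤ s ^ (2 * T) * Real.exp (lam * (1 + L) + -(s + 8 * ℓ)) :=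
          mul_le_mul_of_nonneg_left (Real.exp_le_exp.2 h3) (by positivity)
      _ = (K * s ^ (2 * T)) * Real.exp (-(s + 8 * ℓ)) := by rw [Real.exp_add, hK]; ring
      _ ≤ Real.exp s * Real.exp (-(s + 8 * ℓ)) := mul_le_mul_of_nonneg_right hev (Real.exp_pos _).le
      _ = Real.exp (-(8 * ℓ)) := by rw [← Real.exp_add]; congr 1; ring
  -- equidistribution
  obtain ⟨R, hR⟩ : ∃ R : ℕ → ℤ → Prop, R = fun (q : ℕ) (n : ℤ) => n ≡ ρ q [ZMOD (q : ℤ)] := ⟨_, rfl⟩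
  have hRper : ∀ (q : ℕ) (n : ℤ), R q (n + q) ↔ R q n := by
    intro q n
    rw [hR]
    simp only
    unfold Int.ModEq
    rw [Int.add_emod_right]
  have hR1 : ∀ q : ℕ, q.Prime → rq R q = 1 := by
    intro q hq
    exact rq_one ρ R (fun q n => by rw [hR]) q hq
  have hper := Af_per κ κ 1 hκ le_rfl c R hRper (fun q hq => (hR1 q hq).le)
  have hSp : ∀ q ∈ S, q.Prime := fun q hq => (hS q hq).1
  have hSL : ∀ q ∈ S, b ^ L < q := by
    intro q hq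
    have h1 := (hS q hq).2.1
    have : ((b ^ L : ℕ) : ℝ) < q := by push_cast; linarith
    exact_mod_cast this
  have hSκ : ∀ q ∈ S, κ < q := by
    intro q hq
    have h1 := (hS q hq).2.1
    have : (κ : ℝ) < q := by linarith
    exact_mod_cast this
  obtain ⟨d, hd⟩ : ∃ d, d = ∏ q ∈ S, q := ⟨_, rfl⟩
  have hd1 : 1 ≤ d := by rw [hd]; exact Nat.one_le_iff_ne_zero.2 (prod_ne_zero_iff.2 fun q hq => (hSp q hq).ne_zero)
  have hdm : ∏ q ∈ S, q < 2 ^ m := by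
    calc ∏ q ∈ S, q ≤ ∏ _q ∈ S, 2 ^ (g + 1) := prod_le_prod' fun q hq => by
          have h1 : q ≤ ⌊2 * x⌋₊ := Nat.le_floor (hS q hq).2.2.le
          have h2 : ⌊2 * x⌋₊ < 2 ^ (g + 1) := by rw [hg]; exact Nat.lt_pow_succ_log_self (by omega) _
          omega
      _ = (2 ^ (g + 1)) ^ S.card := by rw [prod_const]
      _ ≤ (2 ^ (g + 1)) ^ 4 := Nat.pow_le_pow_right (by positivity) hS4
      _ = 2 ^ (4 * (g + 1)) := by rw [← pow_mul, mul_comm]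
      _ < 2 ^ m := Nat.pow_lt_pow_right (by omega) (by omega)
  have h1 := equi (b ^ k) d hd1 p (hcls.sum _ _ hp) Bd (by
    intro a ha1 ha2
    rw [hd] at ha2 ⊢
    rw [hBd]
    exact hchar k p hp S (fun q hq => ⟨hSp q hq, hSL q hq⟩) m hm1 hdm hLk a ha1 ha2) hBd0
    ((range d).filter (fun n => ∀ q ∈ S, Af κ κ c R q n)) (filter_subset _ _)
  have h2 := cls_card (Af κ κ c R) hper.per S hSp
  rw [← hd] at h2
  have h3 : ∏ q ∈ S, nuB (Af κ κ c R) q = 1 := by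
    apply prod_eq_one
    intro q hq
    rw [Af_nu κ κ hκ le_rfl c R hRper q (hSp q hq) (hSκ q hq)]
    exact hR1 q (hSp q hq)
  rw [h2, h3] at h1
  push_cast at h1
  rw [one_mul] at h1
  have e1 : ∑ v ∈ range (b ^ k), (if ∀ q ∈ S, c + (κ : ℤ) * v ≡ ρ q [ZMOD (q : ℤ)] then p v else 0) =
      ∑ v ∈ range (b ^ k), (if v % d ∈ (range d).filter (fun n => ∀ q ∈ S, Af κ κ c R q n) then p v else 0) := by
    apply sum_congr rfl
    intro v _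
    have e2 : (∀ q ∈ S, c + (κ : ℤ) * v ≡ ρ q [ZMOD (q : ℤ)]) ↔ v % d ∈ (range d).filter (fun n => ∀ q ∈ S, Af κ κ c R q n) := by
      have e3 : (∀ q ∈ S, c + (κ : ℤ) * v ≡ ρ q [ZMOD (q : ℤ)]) ↔ ∀ q ∈ S, Af κ κ c R q v := by
        refine forall₂_congr fun q hq => ?_
        unfold Af
        rw [hR]
        exact ⟨fun h => ⟨hSκ q hq, h⟩, fun h => h.2⟩
      rw [e3, mem_filter, mem_range]
      constructor
      · intro h
        refine ⟨Nat.mod_lt _ hd1, fun q hq => ?_⟩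
        have hqd : q ∣ d := by rw [hd]; exact dvd_prod_of_mem _ hq
        rw [hper.per, Nat.mod_mod_of_dvd _ hqd, ← hper.per]
        exact h q hq
      · rintro ⟨_, h⟩ q hq
        have hqd : q ∣ d := by rw [hd]; exact dvd_prod_of_mem _ hq
        have := h q hq
        rw [hper.per, Nat.mod_mod_of_dvd _ hqd, ← hper.per] at this
        exact this
    by_cases h3 : ∀ q ∈ S, c + (κ : ℤ) * v ≡ ρ q [ZMOD (q : ℤ)]
    · rw [if_pos h3, if_pos (e2.1 h3)]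
    · rw [if_neg h3, if_neg (fun h => h3 (e2.2 h))]
  rw [e1]
  have e4 : (1 : ℝ) / ∏ q ∈ S, (q : ℝ) = 1 / d := by rw [hd]; push_cast; rfl
  rw [e4]
  exact h1.trans hBdx

end Pool.Agent.Run7.h672.WT
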