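import Pool.Agent.Run7.h338.CW.Main

set_option autoImplicit false

/-! The second moment of the overlaps of a choice of classes, for a random translate which is well distributed modulo the
products of four primes. -/

namespace Pool.Agent.Run7.h672.WT
open Finset
open Pool.Agent.Run7.h338.CW (Near o sum_o)

/-- the members of a pair -/
def ce (i : Bool) (z : ℕ × ℕ) : ℕ := if i then z.1 else z.2

lemma ce_ext {z z' : ℕ × ℕ} (i : Bool) (h1 : ce i z = ce i z') (h2 : ce (!i) z = ce (!i) z') : z = z' := by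
  cases i
  · exact Prod.ext h2 h1
  · exact Prod.ext h1 h2

lemma ce_mem {P : Finset ℕ} {z : ℕ × ℕ} (hz : z ∈ P.offDiag) (i : Bool) : ce i z ∈ P := by
  rw [mem_offDiag] at hz
  cases i
  · exact hz.2.1
  · exact hz.1

lemma ce_ne {P : Finset ℕ} {z : ℕ × ℕ} (hz : z ∈ P.offDiag) (i : Bool) : ce i z ≠ ce (!i) z := by
  rw [mem_offDiag] at hz
  cases i
  · exact fun h => hz.2.2 h.symm
  · exact hz.2.2

/-- the integer `m` is in both classes -/
def Ev (a : ℕ → ℤ) (z : ℕ × ℕ) (m : ℤ) : Prop := m ≡ a z.1 [ZMOD (z.1 : ℤ)] ∧ m ≡ a z.2 [ZMOD (z.2 : ℤ)]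

lemma Ev_ce {a : ℕ → ℤ} {z : ℕ × ℕ} {m : ℤ} (h : Ev a z m) (i : Bool) : m ≡ a (ce i z) [ZMOD (ce i z : ℤ)] := by
  cases i
  · exact h.2
  · exact h.1

lemma res_of {t n u : ℤ} {q : ℕ} (h : t + n ≡ u [ZMOD (q : ℤ)]) : t ≡ u - n [ZMOD (q : ℤ)] := by
  have := h.sub_right n
  rwa [add_sub_cancel_right] at this

lemma of_res {t n u : ℤ} {q : ℕ} (h : t ≡ u - n [ZMOD (q : ℤ)]) : t + n ≡ u [ZMOD (q : ℤ)] := by
  have := h.add_right n
  rwa [sub_add_cancel] at this

open Classical in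
/-- the integers of a class in an interval -/
lemma cls_Ioc (N : ℕ) (x : ℝ) (hx : 0 < x) (hN : x ≤ N) (w : ℤ) {q : ℕ} (hq : q.Prime) (hxq : x ≤ q) :
    ∑ n ∈ Ioc (0 : ℤ) N, (if w ≡ n [ZMOD (q : ℤ)] then (1 : ℝ) else 0) ≤ 2 * N / x := by
  have h1 := Pool.Agent.Run7.h338.CW.cls_upper (A := 0) (B := (N : ℤ)) (by positivity) w hq.pos
  have h2 : ∑ n ∈ Ioc (0 : ℤ) N, (if w ≡ n [ZMOD (q : ℤ)] then (1 : ℝ) else 0) =
      (((Ioc (0 : ℤ) N).filter (fun n : ℤ => n ≡ w [ZMOD (q : ℤ)])).card : ℝ) := by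
    rw [card_filter]
    push_cast
    apply sum_congr rfl
    intro n _
    by_cases h : w ≡ n [ZMOD (q : ℤ)]
    · rw [if_pos h, if_pos h.symm]
    · rw [if_neg h, if_neg (fun h' => h h'.symm)]
  rw [h2]
  refine le_trans (by convert h1) ?_
  push_cast
  rw [sub_zero]
  have h3 : (N : ℝ) / q ≤ N / x := div_le_div_of_nonneg_left (Nat.cast_nonneg N) hx hxq
  have h4 : 1 ≤ (N : ℝ) / x := by rw [le_div_iff₀ hx]; linarith
  have h5 : 2 * (N : ℝ) / x = N / x + N / x := by ring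
  linarith

open Classical in
/-- the sum over the second pair, when a member is shared -/
lemma shared_sum (P : Finset ℕ) (x : ℝ) (hx : 0 < x) (hP : Near P x) (N : ℕ) (hN : x ≤ N) (α β γ : ℝ) (hα : 0 ≤ α) (hβ : 0 ≤ β)
    (hγ : 0 ≤ γ) (i j : Bool) (z : ℕ × ℕ) (n : ℤ) :
    ∑ z' ∈ P.offDiag, ∑ n' ∈ Ioc (0 : ℤ) N, (if ce i z = ce j z' then
      (if n ≡ n' [ZMOD (ce i z : ℤ)] then α + (if ce (!i) z = ce (!j) z' then β else 0) else 0) + γ else 0) ≤
      P.card * (2 * N / x * α + N * γ) + 2 * N / x * β := by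
  have hR0 : 0 ≤ 2 * (N : ℝ) / x := by positivity
  obtain ⟨F, hF⟩ : ∃ F, F = P.offDiag.filter (fun z' => ce i z = ce j z') := ⟨_, rfl⟩
  have hFcard : F.card ≤ P.card := by
    apply card_le_card_of_injOn (fun z' => ce (!j) z')
    · intro z' hz'
      rw [hF, mem_coe, mem_filter] at hz'
      exact ce_mem hz'.1 _
    · intro z' hz' z'' hz'' h
      rw [hF, mem_coe, mem_filter] at hz' hz''
      exact ce_ext j (hz'.2.symm.trans hz''.2) h
  have hF1 : (F.filter (fun z' => ce (!i) z = ce (!j) z')).card ≤ 1 := by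
    rw [card_le_one]
    intro z' hz' z'' hz''
    rw [mem_filter, hF, mem_filter] at hz' hz''
    exact ce_ext j (hz'.1.2.symm.trans hz''.1.2) (hz'.2.symm.trans hz''.2)
  have h1 : ∑ z' ∈ P.offDiag, ∑ n' ∈ Ioc (0 : ℤ) N, (if ce i z = ce j z' then
      (if n ≡ n' [ZMOD (ce i z : ℤ)] then α + (if ce (!i) z = ce (!j) z' then β else 0) else 0) + γ else 0) =
      ∑ z' ∈ F, ∑ n' ∈ Ioc (0 : ℤ) N,
        ((if n ≡ n' [ZMOD (ce i z : ℤ)] then α + (if ce (!i) z = ce (!j) z' then β else 0) else 0) + γ) := by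
    rw [hF, sum_filter]
    apply sum_congr rfl
    intro z' _
    by_cases h : ce i z = ce j z'
    · rw [if_pos h]
      apply sum_congr rfl
      intro n' _
      rw [if_pos h]
    · rw [if_neg h]
      apply sum_eq_zero
      intro n' _
      rw [if_neg h]
  rw [h1]
  have h2 : ∀ z' ∈ F, ∑ n' ∈ Ioc (0 : ℤ) N,
        ((if n ≡ n' [ZMOD (ce i z : ℤ)] then α + (if ce (!i) z = ce (!j) z' then β else 0) else 0) + γ) ≤
      (2 * N / x * α + N * γ) + 2 * N / x * (if ce (!i) z = ce (!j) z' then β else 0) := by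
    intro z' hz'
    rw [hF, mem_filter] at hz'
    have hp : ce i z ∈ P := by rw [hz'.2]; exact ce_mem hz'.1 j
    have h3 := cls_Ioc N x hx hN n (hP _ hp).1 (hP _ hp).2.1
    obtain ⟨δ, hδ⟩ : ∃ δ : ℝ, δ = α + (if ce (!i) z = ce (!j) z' then β else 0) := ⟨_, rfl⟩
    have hδ0 : 0 ≤ δ := by
      rw [hδ]
      split_ifs <;> linarith
    rw [← hδ, sum_add_distrib, sum_const, Int.card_Ioc, nsmul_eq_mul]
    have h4 : ∑ n' ∈ Ioc (0 : ℤ) N, (if n ≡ n' [ZMOD (ce i z : ℤ)] then δ else 0) =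
        δ * ∑ n' ∈ Ioc (0 : ℤ) N, (if n ≡ n' [ZMOD (ce i z : ℤ)] then (1 : ℝ) else 0) := by
      rw [mul_sum]
      apply sum_congr rfl
      intro n' _
      split_ifs <;> simp
    rw [h4]
    have h5 : (((N : ℤ) - 0).toNat : ℝ) = N := by
      rw [sub_zero, Int.toNat_natCast]
    rw [h5]
    have h6 := mul_le_mul_of_nonneg_left h3 hδ0
    have h7 : δ * (2 * N / x) = 2 * N / x * α + 2 * N / x * (if ce (!i) z = ce (!j) z' then β else 0) := by
      rw [hδ]
      ring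
    linarith
  refine (sum_le_sum h2).trans ?_
  rw [sum_add_distrib, sum_const, nsmul_eq_mul, ← mul_sum, ← sum_filter, sum_const, nsmul_eq_mul]
  have h3 : (F.card : ℝ) ≤ P.card := by exact_mod_cast hFcard
  have h4 : ((F.filter (fun z' => ce (!i) z = ce (!j) z')).card : ℝ) ≤ 1 := by exact_mod_cast hF1
  have h5 : 0 ≤ 2 * N / x * α + N * γ := by positivity
  have h6 : (F.card : ℝ) * (2 * N / x * α + N * γ) ≤ P.card * (2 * N / x * α + N * γ) := mul_le_mul_of_nonneg_right h3 h5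
  have h7 : 2 * N / x * (((F.filter (fun z' => ce (!i) z = ce (!j) z')).card : ℝ) * β) ≤ 2 * N / x * (1 * β) := by
    apply mul_le_mul_of_nonneg_left _ hR0
    exact mul_le_mul_of_nonneg_right h4 hβ
  linarith

end Pool.Agent.Run7.h672.WT
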